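import Mathlib

namespace Pool.Agent.H.MP_7de982_lc

open Finset

/-- Additive maps satisfying the Leibniz rule relative to a ring homomorphism. -/
structure IsDer {R S : Type*} [CommRing R] [CommRing S] (φ : R →+* S) (d : R → S) : Prop where
  add : ∀ a b, d (a + b) = d a + d b
  mul : ∀ a b, d (a * b) = φ a * d b + φ b * d a

section
variable {F : Type*} [Field F]

/-- `Og n z`: the Laurent series `z` has order at least `n`. -/
def Og (n : ℤ) (z : LaurentSeries F) : Prop := ∀ m < n, z.coeff m = 0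

theorem Og.mono {n n' : ℤ} {z : LaurentSeries F} (h : Og n' z) (hn : n ≤ n') : Og n z :=
  fun m hm => h m (by omega)

theorem Og.zero (n : ℤ) : Og n (0 : LaurentSeries F) := fun m _ => by simp

theorem Og.add {n : ℤ} {z w : LaurentSeries F} (hz : Og n z) (hw : Og n w) : Og n (z + w) :=
  fun m hm => by rw [HahnSeries.coeff_add, hz m hm, hw m hm, add_zero]

theorem Og.neg {n : ℤ} {z : LaurentSeries F} (hz : Og n z) : Og n (-z) :=
  fun m hm => by rw [HahnSeries.coeff_neg, hz m hm, neg_zero]

theorem Og.sub {n : ℤ} {z w : LaurentSeries F} (hz : Og n z) (hw : Og n w) : Og n (z - w) := by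
  rw [sub_eq_add_neg]; exact hz.add hw.neg

theorem Og.sum {ι : Type*} {n : ℤ} {s : Finset ι} {z : ι → LaurentSeries F}
    (h : ∀ i ∈ s, Og n (z i)) : Og n (∑ i ∈ s, z i) := by
  classical
  induction s using Finset.induction_on with
  | empty => simpa using Og.zero n
  | insert i s hi ih =>
    rw [Finset.sum_insert hi]
    exact (h i (by simp)).add (ih fun j hj => h j (by simp [hj]))

theorem Og.mul_coeff {n m : ℤ} {z w : LaurentSeries F} (hz : Og n z) (hw : Og m w) :
    (z * w).coeff (n + m) = z.coeff n * w.coeff m := by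
  rw [HahnSeries.coeff_mul]
  rw [Finset.sum_eq_single (n, m)]
  · rintro ⟨i, j⟩ hij hne
    rw [Finset.mem_antidiagonal] at hij
    obtain ⟨h1, h2, h3⟩ := hij
    simp only at h1 h2 h3 ⊢
    by_cases hi : i < n
    · rw [hz i hi, zero_mul]
    · by_cases hj : j < m
      · rw [hw j hj, mul_zero]
      · exfalso
        apply hne
        ext <;> simp only <;> omega
  · intro h
    rw [Finset.mem_antidiagonal] at h
    simp only [HahnSeries.mem_support, and_true, not_and_or, not_not] at h
    rcases h with h | h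
    · rw [h, zero_mul]
    · rw [h, mul_zero]

theorem Og.mul {n m : ℤ} {z w : LaurentSeries F} (hz : Og n z) (hw : Og m w) :
    Og (n + m) (z * w) := by
  intro k hk
  rw [HahnSeries.coeff_mul]
  apply Finset.sum_eq_zero
  rintro ⟨i, j⟩ hij
  rw [Finset.mem_antidiagonal] at hij
  obtain ⟨h1, h2, h3⟩ := hij
  simp only at h1 h2 h3 ⊢
  by_cases hi : i < n
  · rw [hz i hi, zero_mul]
  · rw [hw j (by omega), mul_zero]

theorem exists_ord {z : LaurentSeries F} (hz : z ≠ 0) : ∃ n, Og n z ∧ z.coeff n ≠ 0 :=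
  ⟨z.order, fun _ hm => HahnSeries.coeff_eq_zero_of_lt_order hm,
    (by rw [← HahnSeries.leadingCoeff_eq]; exact HahnSeries.leadingCoeff_ne_zero.2 hz)⟩

theorem Og.unique {n m : ℤ} {z : LaurentSeries F} (hn : Og n z) (hm : Og m z)
    (hn' : z.coeff n ≠ 0) (hm' : z.coeff m ≠ 0) : n = m := by
  rcases lt_trichotomy n m with h | h | h
  · exact absurd (hm n h) hn'
  · exact h
  · exact absurd (hn m h) hm'

theorem Og.le {n m : ℤ} {z : LaurentSeries F} (hn : Og n z) (hm' : z.coeff m ≠ 0) : n ≤ m := by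
  by_contra h
  exact hm' (hn m (by omega))

theorem og_one : Og 0 (1 : LaurentSeries F) := by
  intro m hm
  rw [HahnSeries.coeff_one, if_neg (by omega)]

theorem Og.pow {n : ℤ} {z : LaurentSeries F} (hz : Og n z) (k : ℕ) : Og (k * n) (z ^ k) := by
  induction k with
  | zero => simpa using og_one
  | succ k ih =>
    rw [pow_succ]
    have := ih.mul hz
    convert this using 1
    push_cast
    ring

theorem Og.pow_coeff {n : ℤ} {z : LaurentSeries F} (hz : Og n z) (k : ℕ) :
    (z ^ k).coeff (k * n) = z.coeff n ^ k := by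
  induction k with
  | zero => simp [HahnSeries.coeff_one]
  | succ k ih =>
    rw [pow_succ, pow_succ, ← ih, ← (hz.pow k).mul_coeff hz]
    congr 1
    push_cast
    ring

theorem Og.inv {n : ℤ} {z : LaurentSeries F} (hz : Og n z) (hn : z.coeff n ≠ 0) :
    Og (-n) z⁻¹ ∧ z⁻¹.coeff (-n) ≠ 0 := by
  have hz0 : z ≠ 0 := by
    rintro rfl
    simp at hn
  obtain ⟨m, hm, hm'⟩ := exists_ord (inv_ne_zero hz0)
  have h1 := hz.mul_coeff hm
  rw [mul_inv_cancel₀ hz0] at h1
  have h2 : n + m = 0 := by
    by_contra h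
    rw [HahnSeries.coeff_one, if_neg h] at h1
    exact mul_ne_zero hn hm' h1.symm
  have h3 : -n = m := by omega
  rw [h3]
  exact ⟨hm, hm'⟩

theorem Og.div {n m : ℤ} {z w : LaurentSeries F} (hz : Og n z) (hw : Og m w)
    (hw' : w.coeff m ≠ 0) : Og (n - m) (z / w) := by
  rw [div_eq_mul_inv, sub_eq_add_neg]
  exact hz.mul (hw.inv hw').1

theorem sq_ord {n : ℤ} {z w : LaurentSeries F} (h : w ^ 2 = z) (hz : Og n z)
    (hz' : z.coeff n ≠ 0) : ∃ m, n = 2 * m ∧ Og m w ∧ w.coeff m ≠ 0 := by
  have hw0 : w ≠ 0 := by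
    rintro rfl
    apply hz'
    rw [← h]
    simp
  obtain ⟨m, hm, hm'⟩ := exists_ord hw0
  refine ⟨m, ?_, hm, hm'⟩
  have h1 := hm.pow 2
  have h2 := hm.pow_coeff 2
  rw [h] at h1 h2
  push_cast at h1 h2
  exact hz.unique h1 hz' (by rw [h2]; exact pow_ne_zero 2 hm')

/-! ### Square roots -/

/-- Coefficients of a square root. -/
noncomputable def sqrtCoeff (f : ℕ → F) (s : F) : ℕ → F
  | 0 => s
  | n + 1 => (f (n + 1) - ∑ i : Fin n, sqrtCoeff f s (i + 1) * sqrtCoeff f s (n - i)) / (2 * s)
  decreasing_by all_goals omega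

theorem sqrtCoeff_spec [CharZero F] (f : ℕ → F) (s : F) (hs : s ≠ 0) (hs2 : s ^ 2 = f 0) :
    (PowerSeries.mk (sqrtCoeff f s)) ^ 2 = PowerSeries.mk f := by
  ext n
  rw [sq, PowerSeries.coeff_mul, Finset.Nat.sum_antidiagonal_eq_sum_range_succ
    (fun i j => PowerSeries.coeff i (PowerSeries.mk (sqrtCoeff f s)) *
      PowerSeries.coeff j (PowerSeries.mk (sqrtCoeff f s)))]
  simp only [PowerSeries.coeff_mk]
  cases n with
  | zero => simp [sqrtCoeff, ← hs2, sq]
  | succ n =>
    rw [Finset.sum_range_succ, Finset.sum_range_succ']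
    have h1 : ∑ k ∈ range n, sqrtCoeff f s (k + 1) * sqrtCoeff f s (n + 1 - (k + 1)) =
        ∑ i : Fin n, sqrtCoeff f s (i + 1) * sqrtCoeff f s (n - i) := by
      rw [Finset.sum_range]
      apply Finset.sum_congr rfl
      intro i _
      congr 2
      omega
    rw [h1]
    have h2 : sqrtCoeff f s 0 = s := by simp [sqrtCoeff]
    have h3 : sqrtCoeff f s (n + 1) = (f (n + 1) - ∑ i : Fin n, sqrtCoeff f s (i + 1) *
      sqrtCoeff f s (n - i)) / (2 * s) := by rw [sqrtCoeff]
    rw [Nat.sub_self, Nat.sub_zero, h2]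
    have h4 : sqrtCoeff f s (n + 1) * (2 * s) = f (n + 1) - ∑ i : Fin n, sqrtCoeff f s (i + 1) *
      sqrtCoeff f s (n - i) := by
      rw [h3, div_mul_cancel₀]
      exact mul_ne_zero two_ne_zero hs
    linear_combination h4

theorem exists_sqrt [CharZero F] [IsAlgClosed F] {n : ℤ} {z : LaurentSeries F}
    (hz : Og (2 * n) z) (hz' : z.coeff (2 * n) ≠ 0) : ∃ w : LaurentSeries F, w ^ 2 = z := by
  have hz0 : z ≠ 0 := by
    rintro rfl
    simp at hz'
  have hord : z.order = 2 * n := by
    obtain ⟨h1, h2⟩ : Og z.order z ∧ z.coeff z.order ≠ 0 :=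
      ⟨fun _ hm => HahnSeries.coeff_eq_zero_of_lt_order hm,
        (by rw [← HahnSeries.leadingCoeff_eq]; exact HahnSeries.leadingCoeff_ne_zero.2 hz0)⟩
    exact h1.unique hz h2 hz'
  set f := z.powerSeriesPart with hf
  have hzf : (HahnSeries.single z.order (1 : F)) * (HahnSeries.ofPowerSeries ℤ F f) = z :=
    LaurentSeries.single_order_mul_powerSeriesPart z
  have hf0 : PowerSeries.coeff 0 f = z.coeff (2 * n) := by
    rw [hf, LaurentSeries.powerSeriesPart_coeff, hord]
    simp
  obtain ⟨s, hs⟩ := IsAlgClosed.exists_pow_nat_eq (PowerSeries.coeff 0 f) (n := 2) (by norm_num)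
  have hs0 : s ≠ 0 := by
    rintro rfl
    apply hz'
    rw [← hf0, ← hs]
    norm_num
  have h1 := sqrtCoeff_spec (fun k => PowerSeries.coeff k f) s hs0 hs
  have h2 : PowerSeries.mk (fun k => PowerSeries.coeff k f) = f := by
    ext k
    simp
  rw [h2] at h1
  refine ⟨HahnSeries.single n (1 : F) * HahnSeries.ofPowerSeries ℤ F
    (PowerSeries.mk (sqrtCoeff (fun k => PowerSeries.coeff k f) s)), ?_⟩
  rw [mul_pow, ← map_pow (HahnSeries.ofPowerSeries ℤ F), h1, sq, HahnSeries.single_mul_single,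
    mul_one, ← two_mul, ← hord]
  exact hzf

/-! ### Derivations acting on coefficients -/

/-- Coefficientwise operator. -/
noncomputable def coefOp (t : ℤ → F → F) (h0 : ∀ n, t n 0 = 0) (z : LaurentSeries F) :
    LaurentSeries F where
  coeff n := t n (z.coeff n)
  isPWO_support' := z.isPWO_support.mono (by
    intro n hn
    rw [Function.mem_support] at hn
    rw [HahnSeries.mem_support]
    intro h
    apply hn
    rw [h, h0])

theorem coefOp_coeff (t : ℤ → F → F) (h0 : ∀ n, t n 0 = 0) (z : LaurentSeries F) (n : ℤ) :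
    (coefOp t h0 z).coeff n = t n (z.coeff n) := rfl

theorem coefOp_support (t : ℤ → F → F) (h0 : ∀ n, t n 0 = 0) (z : LaurentSeries F) :
    (coefOp t h0 z).support ⊆ z.support := by
  intro n hn
  rw [HahnSeries.mem_support, coefOp_coeff] at hn
  rw [HahnSeries.mem_support]
  intro h
  apply hn
  rw [h, h0]

theorem coefOp_isDer (t : ℤ → F → F) (h0 : ∀ n, t n 0 = 0)
    (hadd : ∀ n a b, t n (a + b) = t n a + t n b)
    (hmul : ∀ i j a b, t (i + j) (a * b) = a * t j b + t i a * b) :
    IsDer (RingHom.id (LaurentSeries F)) (coefOp t h0) where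
  add a b := by
    ext n
    simp only [coefOp_coeff, HahnSeries.coeff_add, hadd]
  mul a b := by
    ext n
    rw [coefOp_coeff, HahnSeries.coeff_mul]
    simp only [RingHom.id_apply]
    rw [mul_comm b, HahnSeries.coeff_add,
      HahnSeries.coeff_mul_right' b.isPWO_support (coefOp_support t h0 b),
      HahnSeries.coeff_mul_left' a.isPWO_support (coefOp_support t h0 a), ← Finset.sum_add_distrib]
    have hsum : ∀ (s : Finset (ℤ × ℤ)) (f : ℤ × ℤ → F), t n (∑ x ∈ s, f x) =
        ∑ x ∈ s, t n (f x) := by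
      intro s f
      classical
      induction s using Finset.induction_on with
      | empty => simp [h0]
      | insert i s hi ih => rw [Finset.sum_insert hi, Finset.sum_insert hi, hadd, ih]
    rw [hsum]
    apply Finset.sum_congr rfl
    rintro ⟨i, j⟩ hij
    rw [Finset.mem_antidiagonal] at hij
    obtain ⟨-, -, h3⟩ := hij
    simp only at h3
    subst h3
    simp only [coefOp_coeff, hmul]

theorem Og.coefOp {t : ℤ → F → F} {h0 : ∀ n, t n 0 = 0} {n : ℤ} {z : LaurentSeries F}
    (hz : Og n z) : Og n (coefOp t h0 z) := fun m hm => by rw [coefOp_coeff, hz m hm, h0]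

/-- The Euler derivation. -/
noncomputable def theta : LaurentSeries F → LaurentSeries F :=
  coefOp (fun n a => (n : F) * a) (fun n => mul_zero _)

theorem theta_isDer : IsDer (RingHom.id (LaurentSeries F)) theta :=
  coefOp_isDer _ _ (fun n a b => by ring) (fun i j a b => by push_cast; ring)

theorem theta_coeff (z : LaurentSeries F) (n : ℤ) : (theta z).coeff n = (n : F) * z.coeff n := rfl

theorem Og.theta {n : ℤ} {z : LaurentSeries F} (hz : Og n z) : Og n (theta z) := hz.coefOp

theorem Og.theta_one {z : LaurentSeries F} (hz : Og 0 z) : Og 1 (Pool.Agent.H.MP_7de982_lc.theta z) := by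
  intro m hm
  rw [theta_coeff]
  rcases lt_or_ge m 0 with h | h
  · rw [hz m h, mul_zero]
  · have : m = 0 := by omega
    subst this
    simp

/-- Coefficientwise extension of a derivation of the constants. -/
noncomputable def nab (d : F → F) (h0 : d 0 = 0) : LaurentSeries F → LaurentSeries F :=
  coefOp (fun _ a => d a) (fun _ => h0)

theorem nab_isDer {d : F → F} (h0 : d 0 = 0) (hd : IsDer (RingHom.id F) d) :
    IsDer (RingHom.id (LaurentSeries F)) (nab d h0) :=
  coefOp_isDer _ _ (fun n a b => hd.add a b) (fun i j a b => by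
    rw [hd.mul]
    simp only [RingHom.id_apply]
    ring)

theorem nab_coeff {d : F → F} (h0 : d 0 = 0) (z : LaurentSeries F) (n : ℤ) :
    (nab d h0 z).coeff n = d (z.coeff n) := rfl

theorem Og.nab {d : F → F} {h0 : d 0 = 0} {n : ℤ} {z : LaurentSeries F} (hz : Og n z) :
    Og n (nab d h0 z) := hz.coefOp

end

end Pool.Agent.H.MP_7de982_lc
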