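import Mathlib
import Pool.Agent.H.MP_7de982_lc.Laurent

namespace Pool.Agent.H.MP_7de982_lc

open Polynomial

/-- Value of an integer polynomial in a ring. -/
noncomputable def ev {R : Type*} [CommRing R] (p : ℤ[X]) (z : R) : R :=
  eval₂ (Int.castRingHom R) z p

theorem map_ev {R S : Type*} [CommRing R] [CommRing S] (φ : R →+* S) (p : ℤ[X]) (z : R) :
    φ (ev p z) = ev p (φ z) := by
  unfold ev
  rw [hom_eval₂]
  congr 1
  exact RingHom.ext_int _ _

theorem ev_eq {R : Type*} [CommRing R] (p : ℤ[X]) (z : R) :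
    ev p z = (p.map (Int.castRingHom R)).eval z := by
  rw [eval_map]; rfl

namespace IsDer
variable {R S : Type*} [CommRing R] [CommRing S] {φ : R →+* S} {d : R → S}

theorem zero (h : IsDer φ d) : d 0 = 0 := by
  have := h.add 0 0
  simpa using this

theorem one (h : IsDer φ d) : d 1 = 0 := by
  have := h.mul 1 1
  simpa using this

theorem neg (h : IsDer φ d) (a : R) : d (-a) = -d a := by
  have := h.add a (-a)
  rw [add_neg_cancel, h.zero] at this
  linear_combination -this

theorem sub (h : IsDer φ d) (a b : R) : d (a - b) = d a - d b := by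
  rw [sub_eq_add_neg, h.add, h.neg, sub_eq_add_neg]

theorem nat (h : IsDer φ d) (n : ℕ) : d n = 0 := by
  induction n with
  | zero => simpa using h.zero
  | succ n ih => push_cast; rw [h.add, ih, h.one, add_zero]

theorem int (h : IsDer φ d) (n : ℤ) : d n = 0 := by
  obtain ⟨m, rfl | rfl⟩ := n.eq_nat_or_neg
  · simpa using h.nat m
  · push_cast; rw [h.neg, h.nat, neg_zero]

theorem pow (h : IsDer φ d) (a : R) (n : ℕ) : d (a ^ n) = n * φ a ^ (n - 1) * d a := by
  induction n with
  | zero => simp [h.one]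
  | succ n ih =>
    rw [pow_succ, h.mul, ih, map_pow]
    cases n with
    | zero => simp
    | succ n =>
      simp only [Nat.add_sub_cancel]
      push_cast
      ring

theorem ev (h : IsDer φ d) (p : ℤ[X]) (z : R) :
    d (Pool.Agent.H.MP_7de982_lc.ev p z) =
      φ (Pool.Agent.H.MP_7de982_lc.ev (derivative p) z) * d z := by
  unfold Pool.Agent.H.MP_7de982_lc.ev
  induction p using Polynomial.induction_on' with
  | add p q hp hq =>
    rw [eval₂_add, h.add, hp, hq, derivative_add, eval₂_add, map_add]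
    ring
  | monomial n a =>
    rw [eval₂_monomial, derivative_monomial, eval₂_monomial, h.mul, h.pow]
    have : d ((Int.castRingHom R) a) = 0 := h.int a
    rw [this]
    simp only [map_mul, map_pow, map_natCast]
    ring

end IsDer

section
variable {F : Type*} [Field F]

/-- Value of a polynomial over the constants at a Laurent series. -/
noncomputable def evC (f : F[X]) (ξ : LaurentSeries F) : LaurentSeries F :=
  eval₂ (HahnSeries.C : F →+* LaurentSeries F) ξ f

theorem ev_evC (p : ℤ[X]) (ξ : LaurentSeries F) : ev p ξ = evC (p.map (Int.castRingHom F)) ξ := by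
  unfold ev evC
  rw [eval₂_map]
  congr 1

theorem og_C (a : F) : Og 0 (HahnSeries.C a : LaurentSeries F) := by
  intro m hm
  rw [HahnSeries.C_apply, HahnSeries.coeff_single_of_ne (by omega)]

theorem coeff_C (a : F) : (HahnSeries.C a : LaurentSeries F).coeff 0 = a := by
  rw [HahnSeries.C_apply, HahnSeries.coeff_single_same]

theorem evC_og {f : F[X]} {ξ : LaurentSeries F} (hξ : Og 0 ξ) :
    Og 0 (evC f ξ) ∧ (evC f ξ).coeff 0 = f.eval (ξ.coeff 0) := by
  unfold evC
  induction f using Polynomial.induction_on' with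
  | add p q hp hq =>
    rw [eval₂_add, eval_add]
    exact ⟨hp.1.add hq.1, by rw [HahnSeries.coeff_add, hp.2, hq.2]⟩
  | monomial n a =>
    rw [eval₂_monomial, eval_monomial]
    have h1 := hξ.pow n
    have h2 := hξ.pow_coeff n
    rw [mul_zero] at h1 h2
    refine ⟨by simpa using (og_C a).mul h1, ?_⟩
    have := (og_C a).mul_coeff h1
    rw [add_zero] at this
    rw [this, coeff_C, h2]

theorem ev_og {p : ℤ[X]} {ξ : LaurentSeries F} (hξ : Og 0 ξ) :
    Og 0 (ev p ξ) ∧ (ev p ξ).coeff 0 = ev p (ξ.coeff 0) := by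
  rw [ev_evC, ev_eq]
  exact evC_og hξ

theorem evC_inf {f : F[X]} {ξ : LaurentSeries F} {n : ℤ} (hn : 0 < n) (hξ : Og (-n) ξ)
    (hξ' : ξ.coeff (-n) ≠ 0) (hf : f ≠ 0) :
    Og (-(f.natDegree * n)) (evC f ξ) ∧ (evC f ξ).coeff (-(f.natDegree * n)) ≠ 0 := by
  have hξ0 : ξ ≠ 0 := by
    rintro rfl
    simp at hξ'
  obtain ⟨h1, h2⟩ := hξ.inv hξ'
  rw [neg_neg] at h1 h2
  have h3 : evC (reverse f) ξ⁻¹ * ξ ^ f.natDegree = evC f ξ := by
    let _ : Invertible ξ := invertibleOfNonzero hξ0
    have := eval₂_reverse_mul_pow (HahnSeries.C : F →+* LaurentSeries F) ξ f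
    rw [invOf_eq_inv] at this
    exact this
  have h4 : Og 0 ξ⁻¹ := h1.mono hn.le
  obtain ⟨h5, h6⟩ := evC_og (f := reverse f) h4
  rw [h1 0 hn, ← coeff_zero_eq_eval_zero, coeff_zero_reverse] at h6
  have h7 := hξ.pow f.natDegree
  have h8 := hξ.pow_coeff f.natDegree
  have h9 := h5.mul h7
  have h10 := h5.mul_coeff h7
  rw [h3] at h9 h10
  have h11 : (0:ℤ) + f.natDegree * -n = -(f.natDegree * n) := by ring
  rw [h11] at h9 h10
  refine ⟨h9, ?_⟩
  rw [h10, h6, h8]
  exact mul_ne_zero (leadingCoeff_ne_zero.2 hf) (pow_ne_zero _ hξ')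

/-- The key local computation. -/
theorem lemmaA [CharZero F] {g : ℤ[X]} (hg : g.natDegree = 6)
    (hsep : ∀ c : F, ev g c = 0 → ev (derivative g) c ≠ 0)
    {d : LaurentSeries F → LaurentSeries F} (hd : IsDer (RingHom.id _) d)
    (h1 : ∀ n z, Og n z → Og n (d z)) {e : ℤ} (he : e ≤ 1) (h2 : ∀ z, Og 0 z → Og e (d z))
    {X T : LaurentSeries F} (hT : T ≠ 0) (hXT : T ^ 2 = ev g X) :
    Og e (d X / T) ∧ Og e (X * d X / T) := by
  obtain ⟨m, hm, hm'⟩ := exists_ord hT
  by_cases hX : Og 0 X
  · -- regular case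
    obtain ⟨h3, h4⟩ := ev_og (p := g) hX
    have h5 := hm.pow 2
    have h6 := hm.pow_coeff 2
    rw [hXT] at h5 h6
    have h7 : 0 ≤ m := by
      have : (0:ℤ) ≤ ((2:ℕ):ℤ) * m := h3.le (by rw [h6]; exact pow_ne_zero 2 hm')
      push_cast at this
      omega
    have key : Og e (d X / T) := by
      rcases h7.eq_or_lt with h8 | h8
      · rw [← h8] at hm hm'
        simpa using (h2 X hX).div hm hm'
      · have h9 : ev g (X.coeff 0) = 0 := by
          rw [← h4]
          exact h5 0 (by push_cast; omega)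
        have h10 := hsep _ h9
        obtain ⟨h11, h12⟩ := ev_og (p := derivative g) hX
        have h13 : (ev (derivative g) X) ≠ 0 := by
          intro h
          apply h10
          rw [← h12, h]
          simp
        have h14 : d (T ^ 2) = ev (derivative g) X * d X := by
          rw [hXT, hd.ev]
          rfl
        have h15 : d (T ^ 2) = 2 * T * d T := by
          rw [hd.pow]
          simp
        have h16 : d X / T = 2 * d T / ev (derivative g) X := by
          rw [div_eq_div_iff hT h13]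
          linear_combination h15 - h14
        rw [h16]
        have h17 : Og m (2 * d T) := by
          rw [two_mul]
          exact (h1 m T hm).add (h1 m T hm)
        have h18 := h17.div h11 (by rw [h12]; exact h10)
        exact h18.mono (by omega)
    refine ⟨key, ?_⟩
    have := hX.mul key
    rw [zero_add, ← mul_div_assoc] at this
    exact this
  · -- pole
    have hX0 : X ≠ 0 := by
      rintro rfl
      exact hX (Og.zero 0)
    obtain ⟨n, hn, hn'⟩ := exists_ord hX0
    have hn0 : n < 0 := by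
      by_contra h
      exact hX (hn.mono (by omega))
    obtain ⟨k, rfl⟩ : ∃ k, n = -k := ⟨-n, by ring⟩
    have hg0 : (g.map (Int.castRingHom F)) ≠ 0 := by
      rw [Ne, Polynomial.map_eq_zero_iff (RingHom.injective_int _)]
      rintro rfl
      simp at hg
    have hg6 : (g.map (Int.castRingHom F)).natDegree = 6 := by
      rw [natDegree_map_eq_of_injective (RingHom.injective_int _), hg]
    obtain ⟨h3, h4⟩ := evC_inf (by omega) hn hn' hg0
    rw [← ev_evC, hg6] at h3 h4
    obtain ⟨m', h5, h6, h7⟩ := sq_ord hXT h3 h4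
    have h8 : m' = -(3 * k) := by push_cast at h5; omega
    subst h8
    have h9 := (h1 _ X hn).div h6 h7
    have h10 := hn.mul h9
    rw [← mul_div_assoc] at h10
    exact ⟨h9.mono (by omega), h10.mono (by omega)⟩

/-! ### Values of polynomials at local parameters -/

theorem evC_X_sub_C_mul (f : F[X]) (a : F) (ξ : LaurentSeries F) :
    evC ((X - C a) * f) ξ = (ξ - HahnSeries.C a) * evC f ξ := by
  unfold evC
  rw [eval₂_mul, eval₂_sub, eval₂_X, eval₂_C]

/-- Order of the value at a local parameter at a simple root. -/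
theorem evC_root {f : F[X]} {a : F} {ξ : LaurentSeries F} {e : ℤ} (he : 0 < e)
    (hξ : Og e (ξ - HahnSeries.C a)) (hξ' : (ξ - HahnSeries.C a).coeff e ≠ 0)
    (h0 : f.eval a = 0) (h1 : (derivative f).eval a ≠ 0) :
    Og e (evC f ξ) ∧ (evC f ξ).coeff e ≠ 0 := by
  obtain ⟨h, rfl⟩ : (X - C a) ∣ f := dvd_iff_isRoot.2 h0
  have h2 : h.eval a ≠ 0 := by
    simpa [derivative_mul] using h1
  rw [evC_X_sub_C_mul]
  have h3 : ξ = (ξ - HahnSeries.C a) + HahnSeries.C a := by ring
  have h4 : Og 0 ξ := by
    rw [h3]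
    exact (hξ.mono he.le).add (og_C a)
  have h5 : ξ.coeff 0 = a := by
    rw [h3, HahnSeries.coeff_add, hξ 0 he, coeff_C, zero_add]
  obtain ⟨h6, h7⟩ := evC_og (f := h) h4
  have h8 := hξ.mul h6
  have h9 := hξ.mul_coeff h6
  rw [add_zero] at h8 h9
  refine ⟨h8, ?_⟩
  rw [h9, h7, h5]
  exact mul_ne_zero hξ' h2

end

end Pool.Agent.H.MP_7de982_lc
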