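import Mathlib
import Pool.Agent.H.MP_7de982_lc.LemmaA

namespace Pool.Agent.H.MP_7de982_lc

open TensorProduct

theorem exists_der_of_formallyEtale (R A T : Type*) [CommRing R] [CommRing A] [CommRing T]
    [Algebra R A] [Algebra R T] [Algebra A T] [IsScalarTower R A T] [Algebra.FormallyEtale A T]
    (D₀ : Derivation R A T) : ∃ D : Derivation R T T, ∀ a, D (algebraMap A T a) = D₀ a := by
  let e := KaehlerDifferential.tensorKaehlerEquivOfFormallyEtale R A T
  let φ : Ω[A⁄R] →ₗ[A] T := D₀.liftKaehlerDifferential
  let ψ : T ⊗[A] Ω[A⁄R] →ₗ[T] T := LinearMap.liftBaseChange T φ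
  refine ⟨(ψ ∘ₗ e.symm.toLinearMap).compDer (KaehlerDifferential.D R T), fun a => ?_⟩
  show ψ (e.symm (KaehlerDifferential.D R T (algebraMap A T a))) = D₀ a
  have h1 : e.symm (KaehlerDifferential.D R T (algebraMap A T a)) =
      1 ⊗ₜ KaehlerDifferential.D R A a :=
    KaehlerDifferential.tensorKaehlerEquivOfFormallyEtale_symm_D_algebraMap R A T a
  rw [h1, LinearMap.liftBaseChange_tmul, one_smul]
  exact D₀.liftKaehlerDifferential_comp_D a

theorem exists_der_mv (R σ T : Type*) [CommRing R] [CommRing T] [Algebra R T]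
    [Algebra (MvPolynomial σ R) T] [IsScalarTower R (MvPolynomial σ R) T]
    [Algebra.FormallyEtale (MvPolynomial σ R) T] (f : σ → T) :
    ∃ D : T → T, (∀ a b, D (a + b) = D a + D b) ∧ (∀ a b, D (a * b) = a * D b + b * D a) ∧
      ∀ i, D (algebraMap (MvPolynomial σ R) T (MvPolynomial.X i)) = f i := by
  obtain ⟨D, hD⟩ := exists_der_of_formallyEtale R (MvPolynomial σ R) T
    (MvPolynomial.mkDerivation R f)
  refine ⟨D, fun a b => map_add D a b, fun a b => D.leibniz a b, fun i => ?_⟩
  rw [hD, MvPolynomial.mkDerivation_X]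

universe u
variable (V : Type u)

/-- The field of rational functions over the rationals in the variables `V`. -/
abbrev K0 : Type u := FractionRing (MvPolynomial V ℤ)

instance K0_charZero : CharZero (K0 V) :=
  charZero_of_injective_algebraMap (IsFractionRing.injective (MvPolynomial V ℤ) (K0 V))

/-- Its algebraic closure. -/
abbrev Om : Type u := AlgebraicClosure (K0 V)

instance Om_charZero : CharZero (Om V) :=
  charZero_of_injective_algebraMap (algebraMap (K0 V) (Om V)).injective

variable {V}

/-- The inclusion of polynomials. -/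
noncomputable def inc : MvPolynomial V ℤ →+* Om V :=
  (algebraMap (K0 V) (Om V)).comp (algebraMap (MvPolynomial V ℤ) (K0 V))

theorem inc_apply (p : MvPolynomial V ℤ) :
    inc p = algebraMap (K0 V) (Om V) (algebraMap (MvPolynomial V ℤ) (K0 V) p) := rfl

theorem inc_injective : Function.Injective (inc : MvPolynomial V ℤ →+* Om V) :=
  (algebraMap (K0 V) (Om V)).injective.comp (IsFractionRing.injective _ _)

/-- The variables. -/
noncomputable def xx (v : V) : Om V := inc (MvPolynomial.X v)

theorem exists_der (v : V) : ∃ d : Om V → Om V, IsDer (RingHom.id (Om V)) d ∧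
    d (xx v) = 1 ∧ ∀ u, u ≠ v → d (xx u) = 0 := by
  classical
  have h1 : Algebra.FormallyEtale (MvPolynomial V ℤ) (K0 V) :=
    Algebra.FormallyEtale.of_isLocalization (nonZeroDivisors (MvPolynomial V ℤ))
  have h2 : Algebra.FormallyEtale (K0 V) (Om V) := Algebra.FormallyEtale.of_isSeparable _ _
  have h3 : Algebra.FormallyEtale (MvPolynomial V ℤ) (Om V) :=
    Algebra.FormallyEtale.comp (MvPolynomial V ℤ) (K0 V) (Om V)
  obtain ⟨D, h4, h5, h6⟩ := exists_der_mv ℤ V (Om V) (fun u => if u = v then (1 : Om V) else 0)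
  refine ⟨D, ⟨h4, h5⟩, ?_, fun u hu => ?_⟩
  · have := h6 v
    rw [if_pos rfl] at this
    exact this
  · have := h6 u
    rw [if_neg hu] at this
    exact this

/-- The derivations with respect to the variables. -/
noncomputable def del (v : V) : Om V → Om V := Classical.choose (exists_der v)

theorem del_isDer (v : V) : IsDer (RingHom.id (Om V)) (del v) :=
  (Classical.choose_spec (exists_der v)).1

theorem del_self (v : V) : del v (xx v) = 1 := (Classical.choose_spec (exists_der v)).2.1

theorem del_ne {u v : V} (h : u ≠ v) : del v (xx u) = 0 :=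
  (Classical.choose_spec (exists_der v)).2.2 u h

end Pool.Agent.H.MP_7de982_lc
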