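import Mathlib
import Pool.Agent.H.MP_7de982_lc.Der

namespace Pool.Agent.H.MP_7de982_lc

open MvPolynomial IntermediateField

universe u
variable {V : Type u}

theorem exists_frac (x : K0 V) : ∃ p q : MvPolynomial V ℤ, inc q ≠ 0 ∧
    algebraMap (K0 V) (Om V) x = inc p / inc q := by
  obtain ⟨p, q, hq, rfl⟩ := IsFractionRing.div_surjective (A := MvPolynomial V ℤ) x
  refine ⟨p, q, ?_, ?_⟩
  · rw [Ne, map_eq_zero_iff _ inc_injective]
    exact nonZeroDivisors.ne_zero hq
  · rw [map_div₀]
    rfl

/-- A chosen square root. -/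
noncomputable def rt (p : MvPolynomial V ℤ) : Om V :=
  Classical.choose (IsAlgClosed.exists_pow_nat_eq (inc p) (n := 2) (by norm_num))

theorem rt_sq (p : MvPolynomial V ℤ) : rt p ^ 2 = inc p :=
  Classical.choose_spec (IsAlgClosed.exists_pow_nat_eq (inc p) (n := 2) (by norm_num))

/-- The field generated by square roots of the elements of `D`. -/
noncomputable abbrev KD (D : Set (MvPolynomial V ℤ)) : IntermediateField (K0 V) (Om V) :=
  adjoin (K0 V) (rt '' D)

theorem rt_mem {D : Set (MvPolynomial V ℤ)} {q : MvPolynomial V ℤ} (hq : q ∈ D) :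
    rt q ∈ KD D := subset_adjoin _ _ ⟨q, hq, rfl⟩

theorem inc_mem (D : Set (MvPolynomial V ℤ)) (p : MvPolynomial V ℤ) : inc p ∈ KD D :=
  IntermediateField.algebraMap_mem (KD D) (algebraMap (MvPolynomial V ℤ) (K0 V) p)

theorem KD_mono {D D' : Set (MvPolynomial V ℤ)} (h : D ⊆ D') : KD D ≤ KD D' :=
  adjoin.mono _ _ _ (Set.image_mono h)

/-- The inclusion of polynomials in `KD D`. -/
noncomputable def incD (D : Set (MvPolynomial V ℤ)) : MvPolynomial V ℤ →+* KD D :=
  (algebraMap (K0 V) (KD D)).comp (algebraMap (MvPolynomial V ℤ) (K0 V))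

theorem coe_incD (D : Set (MvPolynomial V ℤ)) (p : MvPolynomial V ℤ) :
    ((incD D p : KD D) : Om V) = inc p := rfl

theorem incD_injective (D : Set (MvPolynomial V ℤ)) : Function.Injective (incD D) := by
  intro p q h
  apply inc_injective
  rw [← coe_incD D, ← coe_incD D, h]

/-- Generators of `KD D`. -/
noncomputable def rtD {D : Set (MvPolynomial V ℤ)} {q : MvPolynomial V ℤ} (hq : q ∈ D) : KD D :=
  ⟨rt q, rt_mem hq⟩

theorem rtD_sq {D : Set (MvPolynomial V ℤ)} {q : MvPolynomial V ℤ} (hq : q ∈ D) :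
    rtD hq ^ 2 = incD D q := Subtype.ext (rt_sq q)

theorem exists_fracD (D : Set (MvPolynomial V ℤ)) (x : K0 V) : ∃ p q : MvPolynomial V ℤ,
    incD D q ≠ 0 ∧ algebraMap (K0 V) (KD D) x = incD D p / incD D q := by
  obtain ⟨p, q, h1, h2⟩ := exists_frac x
  refine ⟨p, q, ?_, ?_⟩
  · intro h
    apply h1
    rw [← coe_incD D, h]
    rfl
  · apply Subtype.ext
    exact h2

theorem KD_ind {D : Set (MvPolynomial V ℤ)} {P : KD D → Prop}
    (mem : ∀ q (hq : q ∈ D), P (rtD hq)) (hinc : ∀ q, P (incD D q))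
    (add : ∀ x y, P x → P y → P (x + y)) (mul : ∀ x y, P x → P y → P (x * y))
    (inv : ∀ x, P x → P x⁻¹) (x : KD D) : P x := by
  obtain ⟨x, hx⟩ := x
  refine adjoin_induction (K0 V) (s := rt '' D) (p := fun x hx => P ⟨x, hx⟩) ?_ ?_ ?_ ?_ ?_ hx
  · rintro _ ⟨q, hq, rfl⟩
    exact mem q hq
  · intro x
    obtain ⟨p, q, -, h2⟩ := exists_fracD D x
    have h3 : (⟨algebraMap (K0 V) (Om V) x, IntermediateField.algebraMap_mem (KD D) x⟩ : KD D) =
        incD D p * (incD D q)⁻¹ := by
      rw [← div_eq_mul_inv, ← h2]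
      rfl
    rw [h3]
    exact mul _ _ (hinc p) (inv _ (hinc q))
  · intro x y hx hy h1 h2
    exact add _ _ h1 h2
  · intro x hx h1
    exact inv _ h1
  · intro x y hx hy h1 h2
    exact mul _ _ h1 h2

theorem IsDer.inv {k S : Type*} [Field k] [Field S] {φ : k →+* S} {d : k → S} (h : IsDer φ d)
    (a : k) : d a⁻¹ = -(d a / φ a ^ 2) := by
  by_cases ha : a = 0
  · subst ha
    rw [inv_zero, h.zero]
    simp
  · have h1 := h.mul a a⁻¹
    rw [mul_inv_cancel₀ ha, h.one, map_inv₀] at h1
    have h2 : φ a ≠ 0 := by rwa [Ne, map_eq_zero]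
    field_simp
    field_simp at h1
    linear_combination -h1

theorem IsDer.div {k S : Type*} [Field k] [Field S] {φ : k →+* S} {d : k → S} (h : IsDer φ d)
    (a : k) {b : k} (hb : b ≠ 0) : d (a / b) = (φ b * d a - φ a * d b) / φ b ^ 2 := by
  have h2 : φ b ≠ 0 := by rwa [Ne, map_eq_zero]
  rw [div_eq_mul_inv, h.mul, h.inv, map_inv₀]
  field_simp
  ring

theorem IsDer.of_sq {k S : Type*} [Field k] [Field S] {φ : k →+* S} {d : k → S} (h : IsDer φ d)
    {a b : k} (hb : a ^ 2 = b) : 2 * φ a * d a = d b := by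
  rw [← hb, h.pow]
  norm_num

/-- Uniqueness of derivations of `KD D`. -/
theorem der_unique {D : Set (MvPolynomial V ℤ)} {S : Type*} [Field S] [CharZero S]
    {φ : KD D →+* S} {d d' : KD D → S} (h : IsDer φ d) (h' : IsDer φ d')
    (hx : ∀ v, d (incD D (X v)) = d' (incD D (X v))) (z : KD D) : d z = d' z := by
  have h0 : ∀ q, d (incD D q) = d' (incD D q) := by
    intro q
    induction q using MvPolynomial.induction_on with
    | C a =>
      have h1 : (incD D (C a) : KD D) = (a : KD D) := by
        have := eq_intCast ((incD D).comp C) a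
        exact this
      rw [h1, h.int, h'.int]
    | add p q hp hq => rw [map_add, h.add, h'.add, hp, hq]
    | mul_X p v hp => rw [map_mul, h.mul, h'.mul, hp, hx]
  induction z using KD_ind with
  | hinc q => exact h0 q
  | mem q hq =>
    by_cases hq0 : rtD hq = 0
    · rw [hq0, h.zero, h'.zero]
    · have h1 := h.of_sq (rtD_sq hq)
      have h2 := h'.of_sq (rtD_sq hq)
      rw [h0, ← h2] at h1
      have h3 : φ (rtD hq) ≠ 0 := by rwa [Ne, map_eq_zero]
      exact mul_left_cancel₀ (mul_ne_zero two_ne_zero h3) h1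
  | add x y hx hy => rw [h.add, h'.add, hx, hy]
  | mul x y hx hy => rw [h.mul, h'.mul, hx, hy]
  | inv x hx => rw [h.inv, h'.inv, hx]

theorem del_inc (v : V) (p : MvPolynomial V ℤ) : del v (inc p) = inc (pderiv v p) := by
  classical
  induction p using MvPolynomial.induction_on with
  | C a =>
    have h1 : (inc (C a) : Om V) = (a : Om V) := eq_intCast (inc.comp C) a
    rw [h1, (del_isDer v).int]
    simp
  | add p q hp hq => rw [map_add, (del_isDer v).add, hp, hq, map_add, map_add]
  | mul_X p u hp =>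
    rw [map_mul, (del_isDer v).mul, hp]
    have h1 : del v (inc (X u)) = if u = v then 1 else 0 := by
      split_ifs with h
      · rw [h]; exact del_self v
      · exact del_ne h
    rw [h1, Derivation.leibniz, pderiv_X, Pi.single_apply]
    simp only [RingHom.id_apply, smul_eq_mul, map_add, map_mul]
    split_ifs with h2
    · simp
    · simp

theorem del_mem {D : Set (MvPolynomial V ℤ)} (v : V) (z : KD D) : del v (z : Om V) ∈ KD D := by
  have hd := del_isDer v
  induction z using KD_ind with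
  | hinc q => rw [coe_incD, del_inc]; exact inc_mem D _
  | mem q hq =>
    by_cases hq0 : rt q = 0
    · have : ((rtD hq : KD D) : Om V) = 0 := hq0
      rw [this, hd.zero]
      exact zero_mem _
    · have h1 := hd.of_sq (rt_sq q)
      rw [del_inc, RingHom.id_apply] at h1
      have h2 : del v (rt q) = inc (pderiv v q) / (2 * rt q) := by
        rw [eq_div_iff (mul_ne_zero two_ne_zero hq0), ← h1]
        ring
      have h3 : ((rtD hq : KD D) : Om V) = rt q := rfl
      rw [h3, h2]
      exact div_mem (inc_mem D _) (mul_mem (ofNat_mem _ 2) (rt_mem hq))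
  | add x y hx hy =>
    have : (((x + y : KD D)) : Om V) = (x : Om V) + y := rfl
    rw [this, hd.add]
    exact add_mem hx hy
  | mul x y hx hy =>
    have : (((x * y : KD D)) : Om V) = (x : Om V) * y := rfl
    rw [this, hd.mul]
    exact add_mem (mul_mem x.2 hy) (mul_mem y.2 hx)
  | inv x hx =>
    have : (((x⁻¹ : KD D)) : Om V) = (x : Om V)⁻¹ := rfl
    rw [this, hd.inv]
    exact neg_mem (div_mem hx (pow_mem x.2 2))

/-- Restriction of the derivations to `KD D`. -/
noncomputable def delD (D : Set (MvPolynomial V ℤ)) (v : V) (z : KD D) : KD D :=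
  ⟨del v (z : Om V), del_mem v z⟩

theorem coe_delD (D : Set (MvPolynomial V ℤ)) (v : V) (z : KD D) :
    ((delD D v z : KD D) : Om V) = del v (z : Om V) := rfl

theorem delD_isDer (D : Set (MvPolynomial V ℤ)) (v : V) :
    IsDer (RingHom.id (KD D)) (delD D v) where
  add _ _ := Subtype.ext ((del_isDer v).add _ _)
  mul _ _ := Subtype.ext ((del_isDer v).mul _ _)

theorem delD_inc (D : Set (MvPolynomial V ℤ)) (v : V) (p : MvPolynomial V ℤ) :
    delD D v (incD D p) = incD D (pderiv v p) := Subtype.ext (del_inc v p)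

end Pool.Agent.H.MP_7de982_lc
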