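import Mathlib
import Pool.Agent.H.MP_7de982_lc.Setup

namespace Pool.Agent.H.MP_7de982_lc

open IntermediateField

universe u
variable {V : Type u}

open scoped Classical in
/-- Polynomials as polynomials in the variable `k`. -/
noncomputable def kap (k : V) : MvPolynomial V ℤ →+* Polynomial (Om V) :=
  MvPolynomial.eval₂Hom (Int.castRingHom _)
    (fun v => if v = k then Polynomial.X else Polynomial.C (xx v))

theorem kap_self (k : V) : kap k (MvPolynomial.X k) = Polynomial.X := by
  simp [kap]

theorem kap_ne {k v : V} (h : v ≠ k) : kap k (MvPolynomial.X v) = Polynomial.C (xx v) := by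
  simp [kap, h]

theorem eval_kap (k : V) (p : MvPolynomial V ℤ) : (kap k p).eval (xx k) = inc p := by
  have h : (Polynomial.evalRingHom (xx k)).comp (kap k) = inc := by
    apply MvPolynomial.ringHom_ext'
    · exact RingHom.ext_int _ _
    · intro v
      by_cases h : v = k
      · subst h
        simp [kap_self, xx]
      · simp [kap_ne h, xx]
  have := RingHom.congr_fun h p
  exact this

theorem kap_ne_zero {k : V} {p : MvPolynomial V ℤ} (hp : p ≠ 0) : kap k p ≠ 0 := by
  intro h
  apply hp
  apply inc_injective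
  rw [← eval_kap k, h]
  simp

theorem derivative_kap (k : V) (p : MvPolynomial V ℤ) :
    Polynomial.derivative (kap k p) = kap k (MvPolynomial.pderiv k p) := by
  classical
  induction p using MvPolynomial.induction_on with
  | C a =>
    have h1 : kap k (MvPolynomial.C a) = (a : Polynomial (Om V)) :=
      eq_intCast ((kap k).comp MvPolynomial.C) a
    rw [h1]
    simp
  | add p q hp hq => rw [map_add, Polynomial.derivative_add, hp, hq, map_add, map_add]
  | mul_X p v hp =>
    rw [map_mul, Polynomial.derivative_mul, hp, Derivation.leibniz, MvPolynomial.pderiv_X,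
      Pi.single_apply, map_add, smul_eq_mul, smul_eq_mul, map_mul, map_mul]
    split_ifs with h
    · subst h
      rw [kap_self, Polynomial.derivative_X, map_one]
      ring
    · rw [kap_ne h, Polynomial.derivative_C, map_zero]
      ring

/-- The constant embedding as a ring hom. -/
noncomputable def evCHom {F : Type*} [Field F] (ξ : LaurentSeries F) :
    Polynomial F →+* LaurentSeries F :=
  Polynomial.eval₂RingHom HahnSeries.C ξ

theorem evCHom_apply {F : Type*} [Field F] (ξ : LaurentSeries F) (f : Polynomial F) :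
    evCHom ξ f = evC f ξ := rfl

theorem evC_ne_zero {F : Type*} [Field F] [IsAlgClosed F] {ξ : LaurentSeries F}
    (hξ : ∀ a, ξ ≠ HahnSeries.C a) {f : Polynomial F} (hf : f ≠ 0) : evC f ξ ≠ 0 := by
  rw [(IsAlgClosed.splits f).eq_prod_roots, ← evCHom_apply, map_mul, map_multiset_prod]
  apply mul_ne_zero
  · unfold evCHom
    rw [Polynomial.coe_eval₂RingHom, Polynomial.eval₂_C, Ne, map_eq_zero]
    exact Polynomial.leadingCoeff_ne_zero.2 hf
  · rw [Multiset.map_map]
    apply Multiset.prod_ne_zero
    intro hx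
    rw [Multiset.mem_map] at hx
    obtain ⟨a, -, ha⟩ := hx
    simp only [Function.comp_apply, evCHom, Polynomial.coe_eval₂RingHom, Polynomial.eval₂_sub,
      Polynomial.eval₂_X, Polynomial.eval₂_C] at ha
    exact sub_ne_zero.2 (hξ a) ha

/-- Extension of a field homomorphism to a field generated by square roots. -/
theorem exists_ext {k L F : Type*} [Field k] [Field L] [Field F] [Algebra k L] [Algebra k F]
    (S : Set L) (hS : ∀ s ∈ S, ∃ c : k, s ^ 2 = algebraMap k L c ∧
      ∃ w : F, w ^ 2 = algebraMap k F c) : Nonempty (adjoin k S →ₐ[k] F) := by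
  apply nonempty_algHom_adjoin_of_splits
  intro s hs
  obtain ⟨c, h1, w, h2⟩ := hS s hs
  have hm : (Polynomial.X ^ 2 - Polynomial.C c : Polynomial k).Monic :=
    Polynomial.monic_X_pow_sub_C c (by norm_num)
  have hr : Polynomial.aeval s (Polynomial.X ^ 2 - Polynomial.C c : Polynomial k) = 0 := by
    simp [h1]
  refine ⟨⟨_, hm, by simpa [Polynomial.aeval_def] using hr⟩, ?_⟩
  have h3 : ((Polynomial.X ^ 2 - Polynomial.C c : Polynomial k).map (algebraMap k F)).Splits := by
    have h4 : (Polynomial.X ^ 2 - Polynomial.C c : Polynomial k).map (algebraMap k F) =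
        (Polynomial.X - Polynomial.C w) * (Polynomial.X - Polynomial.C (-w)) := by
      simp only [Polynomial.map_sub, Polynomial.map_pow, Polynomial.map_X, Polynomial.map_C,
        ← h2, map_neg, map_pow]
      ring
    rw [h4]
    exact (Polynomial.Splits.X_sub_C w).mul (Polynomial.Splits.X_sub_C (-w))
  refine h3.of_dvd ?_ ?_
  · exact (hm.map _).ne_zero
  · exact Polynomial.map_dvd _ (minpoly.dvd k s hr)

/-- A place of type `k`. -/
def Place (D : Set (MvPolynomial V ℤ)) (k : V) (ξ : LaurentSeries (Om V))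
    (ι : KD D →+* LaurentSeries (Om V)) : Prop := ∀ p, ι (incD D p) = evC (kap k p) ξ

theorem exists_place {D : Set (MvPolynomial V ℤ)} {k : V} {ξ : LaurentSeries (Om V)}
    (hξ : ∀ a, ξ ≠ HahnSeries.C a) (hD : ∀ q ∈ D, ∃ w : LaurentSeries (Om V),
      w ^ 2 = evC (kap k q) ξ) : ∃ ι, Place D k ξ ι := by
  have h1 : Function.Injective ((evCHom ξ).comp (kap k)) := by
    rw [injective_iff_map_eq_zero]
    intro p hp
    by_contra h
    exact evC_ne_zero hξ (kap_ne_zero h) hp
  let φ : K0 V →+* LaurentSeries (Om V) := IsFractionRing.lift h1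
  have hφ : ∀ p, φ (algebraMap (MvPolynomial V ℤ) (K0 V) p) = evC (kap k p) ξ :=
    fun p => IsFractionRing.lift_algebraMap h1 p
  obtain ⟨ι, hι⟩ : ∃ ι : KD D →+* LaurentSeries (Om V), ∀ x : K0 V,
      ι (algebraMap (K0 V) (KD D) x) = φ x := by
    clear_value φ
    have key : ∀ (F : Type u) [Field F] (φ : K0 V →+* F), (∀ q ∈ D, ∃ w : F,
        w ^ 2 = φ (algebraMap (MvPolynomial V ℤ) (K0 V) q)) → ∃ ι : KD D →+* F,
        ∀ x : K0 V, ι (algebraMap (K0 V) (KD D) x) = φ x := by
      intro F _ φ hφ
      let _ : Algebra (K0 V) F := φ.toAlgebra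
      obtain ⟨ι⟩ := exists_ext (k := K0 V) (L := Om V) (F := F) (rt '' D) (by
        rintro _ ⟨q, hq, rfl⟩
        obtain ⟨w, hw⟩ := hφ q hq
        exact ⟨algebraMap _ _ q, rt_sq q, w, hw⟩)
      exact ⟨ι.toRingHom, fun x => ι.commutes x⟩
    apply key
    intro q hq
    rw [hφ]
    exact hD q hq
  refine ⟨ι, fun p => ?_⟩
  rw [← hφ, ← hι]
  rfl

end Pool.Agent.H.MP_7de982_lc
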