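import Mathlib
import Pool.Agent.H.MP_7de982_lc.Place

namespace Pool.Agent.H.MP_7de982_lc

open IntermediateField

section
variable {F : Type*} [Field F]

/-- Local parameter at `a`. -/
noncomputable def loc (a : F) (e : ℤ) : LaurentSeries F := HahnSeries.C a + HahnSeries.single e 1

theorem og_single (e : ℤ) (c : F) : Og e (HahnSeries.single e c : LaurentSeries F) := by
  intro m hm
  rw [HahnSeries.coeff_single_of_ne (by omega)]

theorem loc_ne {a : F} {e : ℤ} (he : e ≠ 0) (b : F) : loc a e ≠ HahnSeries.C b := by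
  intro h
  have := congrArg (fun z => HahnSeries.coeff z e) h
  simp [loc, HahnSeries.C_apply, HahnSeries.coeff_single_of_ne he] at this

theorem single_ne {e : ℤ} (he : e ≠ 0) (b : F) :
    (HahnSeries.single e 1 : LaurentSeries F) ≠ HahnSeries.C b := by
  intro h
  have := congrArg (fun z => HahnSeries.coeff z e) h
  simp [HahnSeries.C_apply, HahnSeries.coeff_single_of_ne he] at this

theorem loc_og {a : F} {e : ℤ} (he : 0 < e) : Og 0 (loc a e) ∧ (loc a e).coeff 0 = a := by
  refine ⟨(og_C a).add ((og_single e 1).mono he.le), ?_⟩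
  unfold loc
  rw [HahnSeries.coeff_add, coeff_C, HahnSeries.coeff_single_of_ne (by omega), add_zero]

theorem theta_single (e : ℤ) (c : F) :
    theta (HahnSeries.single e c : LaurentSeries F) = HahnSeries.single e ((e : F) * c) := by
  ext n
  rw [theta_coeff]
  by_cases h : n = e
  · subst h; simp
  · rw [HahnSeries.coeff_single_of_ne h, HahnSeries.coeff_single_of_ne h, mul_zero]

theorem theta_C (c : F) : theta (HahnSeries.C c : LaurentSeries F) = 0 := by
  rw [HahnSeries.C_apply, theta_single]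
  simp

theorem theta_loc (a : F) (e : ℤ) : theta (loc a e) = HahnSeries.single e (e : F) := by
  unfold loc
  rw [theta_isDer.add, theta_C, theta_single, mul_one, zero_add]

theorem nab_C {d : F → F} (h0 : d 0 = 0) (c : F) :
    nab d h0 (HahnSeries.C c : LaurentSeries F) = HahnSeries.C (d c) := by
  ext n
  rw [nab_coeff, HahnSeries.C_apply, HahnSeries.C_apply]
  by_cases h : n = 0
  · subst h; simp
  · rw [HahnSeries.coeff_single_of_ne h, HahnSeries.coeff_single_of_ne h, h0]

theorem nab_single {d : F → F} (h0 : d 0 = 0) (h1 : d 1 = 0) (e : ℤ) :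
    nab d h0 (HahnSeries.single e 1 : LaurentSeries F) = 0 := by
  ext n
  rw [nab_coeff]
  by_cases h : n = e
  · subst h; simp [h1]
  · rw [HahnSeries.coeff_single_of_ne h, h0]
    simp

theorem nab_loc {d : F → F} (hd : IsDer (RingHom.id F) d) (a : F) (e : ℤ) :
    nab d hd.zero (loc a e) = HahnSeries.C (d a) := by
  unfold loc
  rw [(nab_isDer hd.zero hd).add, nab_C, nab_single hd.zero hd.one, add_zero]

theorem evC_loc {f : Polynomial F} (hf : f ≠ 0) {a : F} {e : ℤ} (he : 0 < e) :
    Og (f.rootMultiplicity a * e) (evC f (loc a e)) ∧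
      (evC f (loc a e)).coeff (f.rootMultiplicity a * e) ≠ 0 := by
  obtain ⟨g, hg, hg'⟩ := Polynomial.exists_eq_pow_rootMultiplicity_mul_and_not_dvd f hf a
  have h1 : evC f (loc a e) =
      (HahnSeries.single e (1 : F)) ^ (f.rootMultiplicity a) * evC g (loc a e) := by
    conv_lhs => rw [hg]
    rw [← evCHom_apply, map_mul, map_pow, evCHom_apply _ g]
    congr 2
    simp [evCHom, loc]
  obtain ⟨h2, h3⟩ := evC_og (f := g) (loc_og (a := a) he).1
  rw [(loc_og (a := a) he).2] at h3
  have h4 := (og_single e (1 : F)).pow (f.rootMultiplicity a)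
  have h5 := (og_single e (1 : F)).pow_coeff (f.rootMultiplicity a)
  have h6 := h4.mul h2
  have h7 := h4.mul_coeff h2
  rw [add_zero, ← h1] at h6 h7
  refine ⟨h6, ?_⟩
  rw [h7, h5, h3, HahnSeries.coeff_single_same, one_pow, one_mul]
  intro h
  exact hg' (Polynomial.dvd_iff_isRoot.2 h)

theorem evC_poleAt {f : Polynomial F} (hf : f ≠ 0) :
    Og (-(f.natDegree * 2)) (evC f (HahnSeries.single (-2) 1)) ∧
      (evC f (HahnSeries.single (-2) 1)).coeff (-(f.natDegree * 2)) ≠ 0 := by
  apply evC_inf (by norm_num) (og_single (-2) 1) _ hf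
  rw [HahnSeries.coeff_single_same]
  exact one_ne_zero

theorem evC_loc_sq [IsAlgClosed F] [CharZero F] {f : Polynomial F} (hf : f ≠ 0) (a : F) :
    ∃ w : LaurentSeries F, w ^ 2 = evC f (loc a 2) := by
  obtain ⟨h1, h2⟩ := evC_loc hf (a := a) (e := 2) (by norm_num)
  rw [mul_comm] at h1 h2
  exact exists_sqrt h1 h2

theorem evC_poleAt_sq [IsAlgClosed F] [CharZero F] {f : Polynomial F} (hf : f ≠ 0) :
    ∃ w : LaurentSeries F, w ^ 2 = evC f (HahnSeries.single (-2) 1) := by
  obtain ⟨h1, h2⟩ := evC_poleAt hf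
  rw [mul_comm, ← mul_neg] at h1 h2
  exact exists_sqrt h1 h2

theorem evC_unit_sq [IsAlgClosed F] [CharZero F] {f : Polynomial F} {a : F} (hf : f.eval a ≠ 0) :
    ∃ w : LaurentSeries F, w ^ 2 = evC f (loc a 1) := by
  obtain ⟨h1, h2⟩ := evC_og (f := f) (loc_og (a := a) (e := 1) (by norm_num)).1
  rw [(loc_og (a := a) (e := 1) (by norm_num)).2] at h2
  apply exists_sqrt (n := 0)
  · simpa using h1
  · simpa [h2] using hf

end

universe u
variable {V : Type u}

/-- The nonsquare criterion. -/
theorem not_sq {D : Set (MvPolynomial V ℤ)} {k : V} {a : Om V}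
    (hD : ∀ q ∈ D, (kap k q).eval a ≠ 0) {H : MvPolynomial V ℤ} (h0 : (kap k H).eval a = 0)
    (h1 : (Polynomial.derivative (kap k H)).eval a ≠ 0) (z : KD D) : z ^ 2 ≠ incD D H := by
  intro hz
  obtain ⟨ι, hι⟩ := exists_place (D := D) (k := k) (loc_ne (a := a) (e := 1) (by norm_num))
    (fun q hq => evC_unit_sq (hD q hq))
  have h2 : (ι z) ^ 2 = evC (kap k H) (loc a 1) := by rw [← map_pow, hz, hι]
  have h3 : loc a 1 - HahnSeries.C a = HahnSeries.single 1 1 := by unfold loc; ring
  obtain ⟨h4, h5⟩ := evC_root (ξ := loc a 1) (e := 1) (by norm_num) (by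
    rw [h3]; exact og_single 1 1) (by rw [h3]; simp) h0 h1
  obtain ⟨m, hm, -, -⟩ := sq_ord h2 h4 h5
  omega

theorem isGaloisKD (D : Set (MvPolynomial V ℤ)) : IsGalois (KD D) (Om V) := by
  have h1 : IsAlgClosure (KD D) (Om V) := ⟨inferInstance, inferInstance⟩
  have h2 : CharZero (KD D) := inferInstance
  exact IsAlgClosure.isGalois (KD D) (Om V)

/-- Sign changes. -/
theorem exists_flip {D D' : Set (MvPolynomial V ℤ)} {g : MvPolynomial V ℤ}
    (hg : g ∈ D) (hD2 : D ⊆ insert g D') (h : rt g ∉ KD D') : ∃ σ : KD D →+* KD D,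
      (∀ z : KD D, (z : Om V) ∈ KD D' → σ z = z) ∧ σ (rtD hg) = -rtD hg := by
  have h1 := isGaloisKD D'
  have h2 : rt g ∉ (⊥ : IntermediateField (KD D') (Om V)) := by
    intro h3
    rw [IntermediateField.mem_bot] at h3
    obtain ⟨x, hx⟩ := h3
    apply h
    rw [← hx]
    exact x.2
  rw [InfiniteGalois.mem_bot_iff_fixed] at h2
  push Not at h2
  obtain ⟨f, hf⟩ := h2
  have hfix : ∀ z ∈ KD D', f z = z := fun z hz => f.commutes ⟨z, hz⟩
  have hfg : f (rt g) = -rt g := by
    have h3 : (f (rt g)) ^ 2 = rt g ^ 2 := by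
      rw [← map_pow, rt_sq]
      exact hfix _ (inc_mem D' g)
    rcases sq_eq_sq_iff_eq_or_eq_neg.1 h3 with h4 | h4
    · exact absurd h4 hf
    · exact h4
  have hmem : ∀ z : KD D, f (z : Om V) ∈ KD D := by
    intro z
    induction z using KD_ind with
    | hinc q =>
      rw [coe_incD, hfix _ (inc_mem D' q)]
      exact inc_mem D q
    | mem q hq =>
      have h3 : ((rtD hq : KD D) : Om V) = rt q := rfl
      rw [h3]
      rcases hD2 hq with h4 | h4
      · rw [h4, hfg]
        exact neg_mem (rt_mem hg)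
      · rw [hfix _ (rt_mem h4)]
        exact rt_mem hq
    | add x y hx hy =>
      have : (((x + y : KD D)) : Om V) = (x : Om V) + y := rfl
      rw [this, map_add]
      exact add_mem hx hy
    | mul x y hx hy =>
      have : (((x * y : KD D)) : Om V) = (x : Om V) * y := rfl
      rw [this, map_mul]
      exact mul_mem hx hy
    | inv x hx =>
      have : (((x⁻¹ : KD D)) : Om V) = (x : Om V)⁻¹ := rfl
      rw [this, map_inv₀]
      exact inv_mem hx
  refine ⟨((f : Om V →+* Om V).comp (algebraMap (KD D) (Om V))).codRestrict (KD D) hmem, ?_, ?_⟩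
  · intro z hz
    exact Subtype.ext (hfix _ hz)
  · exact Subtype.ext hfg

end Pool.Agent.H.MP_7de982_lc
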