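import Mathlib
import Pool.Agent.H.MP_7de982_lc.Flip

namespace Pool.Agent.H.MP_7de982_lc

open IntermediateField

universe u
variable {V : Type u}

/-- Coefficientwise derivation. -/
noncomputable def nb (i : V) : LaurentSeries (Om V) → LaurentSeries (Om V) :=
  nab (del i) (del_isDer i).zero

theorem nb_isDer (i : V) : IsDer (RingHom.id _) (nb i) :=
  nab_isDer (del_isDer i).zero (del_isDer i)

theorem IsDer.comp_right {R S T : Type*} [CommRing R] [CommRing S] [CommRing T] {d : S → T}
    {φ : S →+* T} (h : IsDer φ d) (ι : R →+* S) : IsDer (φ.comp ι) (fun z => d (ι z)) where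
  add a b := by rw [map_add, h.add]
  mul a b := by rw [map_mul, h.mul]; rfl

theorem IsDer.comp_left {R S T : Type*} [CommRing R] [CommRing S] [CommRing T] {d : R → S}
    {φ : R →+* S} (h : IsDer φ d) (ι : S →+* T) : IsDer (ι.comp φ) (fun z => ι (d z)) where
  add a b := by rw [h.add, map_add]
  mul a b := by rw [h.mul, map_add, map_mul, map_mul]; rfl

theorem IsDer.addDer {R S : Type*} [CommRing R] [CommRing S] {φ : R →+* S} {d d' : R → S}
    (h : IsDer φ d) (h' : IsDer φ d') : IsDer φ (fun z => d z + d' z) where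
  add a b := by rw [h.add, h'.add]; ring
  mul a b := by rw [h.mul, h'.mul]; ring

theorem IsDer.smulDer {R S : Type*} [CommRing R] [CommRing S] {φ : R →+* S} {d : R → S}
    (h : IsDer φ d) (c : S) : IsDer φ (fun z => d z * c) where
  add a b := by rw [h.add]; ring
  mul a b := by rw [h.mul]; ring

variable {D : Set (MvPolynomial V ℤ)} {k : V} {ξ : LaurentSeries (Om V)}
  {ι : KD D →+* LaurentSeries (Om V)}

theorem Place.apply_X_self (h : Place D k ξ ι) : ι (incD D (MvPolynomial.X k)) = ξ := by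
  rw [h, kap_self]
  simp [evC]

theorem Place.apply_X_ne (h : Place D k ξ ι) {v : V} (hv : v ≠ k) :
    ι (incD D (MvPolynomial.X v)) = HahnSeries.C (xx v) := by
  rw [h, kap_ne hv]
  simp [evC]

theorem delD_X_self (v : V) : delD D v (incD D (MvPolynomial.X v)) = 1 :=
  Subtype.ext (del_self v)

theorem delD_X_ne {u v : V} (h : u ≠ v) : delD D v (incD D (MvPolynomial.X u)) = 0 :=
  Subtype.ext (del_ne h)

instance : CharZero (LaurentSeries (Om V)) :=
  charZero_of_injective_ringHom (HahnSeries.C : Om V →+* LaurentSeries (Om V)).injective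

theorem theta_place (h : Place D k ξ ι) (z : KD D) : theta (ι z) = ι (delD D k z) * theta ξ := by
  refine der_unique (φ := ι) (d := fun z => theta (ι z))
    (d' := fun z => ι (delD D k z) * theta ξ)
    (theta_isDer.comp_right ι) (((delD_isDer D k).comp_left ι).smulDer _) (fun v => ?_) z
  by_cases hv : v = k
  · subst hv
    rw [h.apply_X_self, delD_X_self, map_one, one_mul]
  · rw [h.apply_X_ne hv, delD_X_ne hv, map_zero, zero_mul, theta_C]

theorem nb_place (h : Place D k ξ ι) {i : V} (hi : i ≠ k) (z : KD D) :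
    nb i (ι z) = ι (delD D i z) + ι (delD D k z) * nb i ξ := by
  refine der_unique (φ := ι) (d := fun z => nb i (ι z))
    (d' := fun z => ι (delD D i z) + ι (delD D k z) * nb i ξ)
    ((nb_isDer i).comp_right ι)
    (((delD_isDer D i).comp_left ι).addDer (((delD_isDer D k).comp_left ι).smulDer _))
    (fun v => ?_) z
  by_cases hv : v = k
  · subst hv
    rw [h.apply_X_self, delD_X_self, map_one, one_mul, delD_X_ne (Ne.symm hi), map_zero, zero_add]
  · rw [h.apply_X_ne hv, delD_X_ne hv, map_zero, zero_mul, add_zero]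
    by_cases hvi : v = i
    · subst hvi
      rw [delD_X_self, map_one]
      unfold nb
      rw [nab_C, del_self, map_one]
    · rw [delD_X_ne hvi, map_zero]
      unfold nb
      rw [nab_C, del_ne hvi, map_zero]

/-- Regular differential forms. -/
def Reg (D : Set (MvPolynomial V ℤ)) (z : V → KD D) : Prop :=
  ∀ k ξ ι, Place D k ξ ι → Og 1 (ι (z k) * theta ξ) ∧
    ∀ i, i ≠ k → Og 0 (ι (z i) + ι (z k) * nb i ξ)

theorem Reg.add {z w : V → KD D} (hz : Reg D z) (hw : Reg D w) : Reg D (fun v => z v + w v) := by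
  intro k ξ ι h
  obtain ⟨h1, h2⟩ := hz k ξ ι h
  obtain ⟨h3, h4⟩ := hw k ξ ι h
  refine ⟨?_, fun i hi => ?_⟩
  · have := h1.add h3
    rwa [← add_mul, ← map_add] at this
  · have := (h2 i hi).add (h4 i hi)
    convert this using 1
    rw [map_add, map_add]
    ring

theorem Reg.neg {z : V → KD D} (hz : Reg D z) : Reg D (fun v => -z v) := by
  intro k ξ ι h
  obtain ⟨h1, h2⟩ := hz k ξ ι h
  refine ⟨?_, fun i hi => ?_⟩
  · have := h1.neg
    rwa [← neg_mul, ← map_neg] at this
  · have := (h2 i hi).neg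
    convert this using 1
    rw [map_neg, map_neg]
    ring

theorem Og.half {F : Type*} [Field F] [CharZero F] {n : ℤ} {z : LaurentSeries F}
    (h : Og n (2 * z)) : Og n z := by
  intro m hm
  have := h m hm
  rw [two_mul, HahnSeries.coeff_add, ← two_mul] at this
  exact (mul_eq_zero.1 this).resolve_left two_ne_zero

theorem Reg.half {z : V → KD D} (hz : Reg D (fun v => 2 * z v)) : Reg D z := by
  intro k ξ ι h
  obtain ⟨h1, h2⟩ := hz k ξ ι h
  have e2 : ι 2 = 2 := map_ofNat ι 2
  refine ⟨?_, fun i hi => ?_⟩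
  · apply Og.half
    convert h1 using 1
    rw [map_mul, e2]
    ring
  · apply Og.half
    convert (h2 i hi) using 1
    rw [map_mul, map_mul, e2]
    ring

theorem Reg.map {z : V → KD D} (hz : Reg D z) {σ : KD D →+* KD D}
    (hσ : ∀ p, σ (incD D p) = incD D p) : Reg D (fun v => σ (z v)) := by
  intro k ξ ι h
  apply hz k ξ (ι.comp σ)
  intro p
  rw [RingHom.comp_apply, hσ, h]

theorem reg_form {X T : KD D} (hT : T ≠ 0) {g : Polynomial ℤ} (hg : g.natDegree = 6)
    (hsep : ∀ c : Om V, ev g c = 0 → ev (Polynomial.derivative g) c ≠ 0)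
    (hXT : T ^ 2 = ev g X) : Reg D (fun v => delD D v X / T) ∧
      Reg D (fun v => X * delD D v X / T) := by
  have key : ∀ k ξ ι, Place D k ξ ι → (Og 1 (theta (ι X) / ι T) ∧
      Og 1 (ι X * theta (ι X) / ι T)) ∧ ∀ i, (Og 0 (nb i (ι X) / ι T) ∧
      Og 0 (ι X * nb i (ι X) / ι T)) := by
    intro k ξ ι _
    have h1 : ι T ≠ 0 := by rwa [Ne, map_eq_zero]
    have h2 : ι T ^ 2 = ev g (ι X) := by rw [← map_pow, hXT, map_ev]
    refine ⟨?_, fun i => ?_⟩
    · exact lemmaA hg hsep theta_isDer (fun n z hz => hz.theta) le_rfl (fun z hz => hz.theta_one)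
        h1 h2
    · exact lemmaA hg hsep (nb_isDer i) (fun n z hz => hz.nab) (by norm_num)
        (fun z hz => hz.nab) h1 h2
  refine ⟨fun k ξ ι h => ⟨?_, fun i hi => ?_⟩, fun k ξ ι h => ⟨?_, fun i hi => ?_⟩⟩
  · convert (key k ξ ι h).1.1 using 1
    rw [theta_place h, map_div₀]
    ring
  · convert ((key k ξ ι h).2 i).1 using 1
    rw [nb_place h hi, map_div₀, map_div₀]
    ring
  · convert (key k ξ ι h).1.2 using 1
    rw [theta_place h, map_div₀, map_mul]
    ring
  · convert ((key k ξ ι h).2 i).2 using 1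
    rw [nb_place h hi, map_div₀, map_div₀, map_mul, map_mul]
    ring

end Pool.Agent.H.MP_7de982_lc
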