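import Mathlib
import Pool.Agent.H.MP_7de982_lc.Reg

namespace Pool.Agent.H.MP_7de982_lc

open IntermediateField

universe u
variable {V : Type u}

theorem decomp (Γ : Set (MvPolynomial V ℤ)) (g : MvPolynomial V ℤ) (z : KD (insert g Γ)) :
    ∃ x₀ ∈ KD Γ, ∃ x₁ ∈ KD Γ, (z : Om V) = x₀ + rt g * x₁ := by
  induction z using KD_ind with
  | hinc q => exact ⟨inc q, inc_mem Γ q, 0, zero_mem _, by rw [coe_incD]; ring⟩
  | mem q hq =>
    have h3 : ((rtD hq : KD (insert g Γ)) : Om V) = rt q := rfl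
    rw [h3]
    rcases hq with h4 | h4
    · exact ⟨0, zero_mem _, 1, one_mem _, by rw [h4]; ring⟩
    · exact ⟨rt q, rt_mem h4, 0, zero_mem _, by ring⟩
  | add x y hx hy =>
    obtain ⟨x₀, h1, x₁, h2, h3⟩ := hx
    obtain ⟨y₀, h4, y₁, h5, h6⟩ := hy
    have : (((x + y : KD (insert g Γ))) : Om V) = (x : Om V) + y := rfl
    exact ⟨x₀ + y₀, add_mem h1 h4, x₁ + y₁, add_mem h2 h5, by rw [this, h3, h6]; ring⟩
  | mul x y hx hy =>
    obtain ⟨x₀, h1, x₁, h2, h3⟩ := hx
    obtain ⟨y₀, h4, y₁, h5, h6⟩ := hy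
    have : (((x * y : KD (insert g Γ))) : Om V) = (x : Om V) * y := rfl
    refine ⟨x₀ * y₀ + inc g * (x₁ * y₁), add_mem (mul_mem h1 h4)
      (mul_mem (inc_mem Γ g) (mul_mem h2 h5)), x₀ * y₁ + x₁ * y₀,
      add_mem (mul_mem h1 h5) (mul_mem h2 h4), ?_⟩
    rw [this, h3, h6, ← rt_sq]
    ring
  | inv x hx =>
    obtain ⟨x₀, h1, x₁, h2, h3⟩ := hx
    have : (((x⁻¹ : KD (insert g Γ))) : Om V) = (x : Om V)⁻¹ := rfl
    rw [this]
    by_cases hx0 : (x : Om V) = 0
    · exact ⟨0, zero_mem _, 0, zero_mem _, by rw [hx0]; simp⟩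
    by_cases hy0 : x₀ - rt g * x₁ = 0
    · have h4 : (x : Om V) = 2 * x₀ := by rw [h3]; linear_combination -hy0
      refine ⟨(2 * x₀)⁻¹, inv_mem (mul_mem (ofNat_mem _ 2) h1), 0, zero_mem _, by rw [h4]; ring⟩
    · have h5 : (x : Om V) * (x₀ - rt g * x₁) = x₀ ^ 2 - inc g * x₁ ^ 2 := by
        rw [h3, ← rt_sq]; ring
      have h6 : x₀ ^ 2 - inc g * x₁ ^ 2 ≠ 0 := by
        rw [← h5]; exact mul_ne_zero hx0 hy0
      have h7 : x₀ ^ 2 - inc g * x₁ ^ 2 ∈ KD Γ :=
        sub_mem (pow_mem h1 2) (mul_mem (inc_mem Γ g) (pow_mem h2 2))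
      refine ⟨x₀ / (x₀ ^ 2 - inc g * x₁ ^ 2), div_mem h1 h7, -x₁ / (x₀ ^ 2 - inc g * x₁ ^ 2),
        div_mem (neg_mem h2) h7, ?_⟩
      rw [inv_eq_one_div, div_eq_iff hx0]
      field_simp
      linear_combination -h5

open scoped Classical in
/-- Square roots as elements of `KD D`. -/
noncomputable def rtE (D : Set (MvPolynomial V ℤ)) (q : MvPolynomial V ℤ) : KD D :=
  if h : q ∈ D then rtD h else 1

theorem rtE_eq {D : Set (MvPolynomial V ℤ)} {q : MvPolynomial V ℤ} (h : q ∈ D) :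
    rtE D q = rtD h := dif_pos h

theorem rtE_sq {D : Set (MvPolynomial V ℤ)} {q : MvPolynomial V ℤ} (h : q ∈ D) :
    rtE D q ^ 2 = incD D q := by rw [rtE_eq h, rtD_sq]

/-- Closed sets of vectors. -/
structure Closed (D : Set (MvPolynomial V ℤ)) (N : Set (V → KD D)) : Prop where
  add : ∀ z w, z ∈ N → w ∈ N → (fun v => z v + w v) ∈ N
  neg : ∀ z, z ∈ N → (fun v => -z v) ∈ N
  half : ∀ z, (fun v => 2 * z v) ∈ N → z ∈ N
  map : ∀ σ : KD D →+* KD D, (∀ p, σ (incD D p) = incD D p) → ∀ z, z ∈ N →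
    (fun v => σ (z v)) ∈ N

theorem reg_closed (D : Set (MvPolynomial V ℤ)) : Closed D {z | Reg D z} where
  add _ _ hz hw := Reg.add hz hw
  neg _ hz := Reg.neg hz
  half _ hz := Reg.half hz
  map _ hσ _ hz := Reg.map hz hσ

theorem comp {D : Set (MvPolynomial V ℤ)} (hD : ∀ g ∈ D, rt g ∉ KD (D \ {g}))
    (Γ : Finset (MvPolynomial V ℤ)) : (Γ : Set (MvPolynomial V ℤ)) ⊆ D →
    ∀ (N : Set (V → KD D)), Closed D N → ∀ (C : Set (KD D)),
    (∀ x y, x ∈ C → y ∈ C → x + y ∈ C) → ∀ v₀ : V,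
    (∀ U, (U : Finset (MvPolynomial V ℤ)) ⊆ Γ → ∀ a : V → K0 V,
      (fun v => algebraMap (K0 V) (KD D) (a v) * ∏ g ∈ U, rtE D g) ∈ N →
      algebraMap (K0 V) (KD D) (a v₀) * ∏ g ∈ U, rtE D g ∈ C) →
    ∀ z ∈ N, (∀ v, (z v : Om V) ∈ KD (Γ : Set (MvPolynomial V ℤ))) → z v₀ ∈ C := by
  classical
  induction Γ using Finset.induction_on with
  | empty =>
    intro hΓ N hN C hC v₀ key z hz hz2
    have h1 : ∀ v, ∃ x : K0 V, algebraMap (K0 V) (Om V) x = z v := by
      intro v
      have := hz2 v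
      rw [Finset.coe_empty, KD, Set.image_empty, adjoin_empty, IntermediateField.mem_bot] at this
      exact this
    choose a ha using h1
    have h2 : ∀ v, algebraMap (K0 V) (KD D) (a v) = z v := fun v => Subtype.ext (ha v)
    have h3 := key ∅ (by simp) a
    simp only [Finset.prod_empty, mul_one, h2] at h3
    exact h3 hz
  | insert g Γ hg ih =>
    intro hΓ N hN C hC v₀ key z hz hz2
    rw [Finset.coe_insert] at hΓ hz2
    have hgD : g ∈ D := hΓ (Set.mem_insert _ _)
    have hΓD : (Γ : Set (MvPolynomial V ℤ)) ⊆ D := (Set.subset_insert _ _).trans hΓ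
    have hΓD' : (Γ : Set (MvPolynomial V ℤ)) ⊆ D \ {g} := by
      intro q hq
      refine ⟨hΓD hq, ?_⟩
      rintro rfl
      exact hg hq
    obtain ⟨σ, hσ, hσg⟩ := exists_flip hgD (D' := D \ {g}) (by
      intro q hq
      by_cases h : q = g
      · exact Or.inl h
      · exact Or.inr ⟨hq, h⟩) (hD g hgD)
    have hσinc : ∀ p, σ (incD D p) = incD D p := fun p => hσ _ (inc_mem _ p)
    have h1 : ∀ v, ∃ x₀ x₁ : KD D, (x₀ : Om V) ∈ KD (Γ : Set (MvPolynomial V ℤ)) ∧
        (x₁ : Om V) ∈ KD (Γ : Set (MvPolynomial V ℤ)) ∧ z v = x₀ + rtE D g * x₁ := by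
      intro v
      obtain ⟨x₀, h2, x₁, h3, h4⟩ := decomp (Γ : Set (MvPolynomial V ℤ)) g ⟨(z v : Om V), hz2 v⟩
      refine ⟨⟨x₀, KD_mono hΓD h2⟩, ⟨x₁, KD_mono hΓD h3⟩, h2, h3, ?_⟩
      rw [rtE_eq hgD]
      exact Subtype.ext h4
    choose z₀ z₁ h2 h3 h4 using h1
    have h5 : ∀ v, σ (z₀ v) = z₀ v := fun v => hσ _ (KD_mono hΓD' (h2 v))
    have h6 : ∀ v, σ (z₁ v) = z₁ v := fun v => hσ _ (KD_mono hΓD' (h3 v))
    have h7 : ∀ v, σ (z v) = z₀ v - rtE D g * z₁ v := by
      intro v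
      rw [h4, map_add, map_mul, h5, h6, rtE_eq hgD, hσg]
      ring
    have h8 : z₀ ∈ N := by
      apply hN.half
      have := hN.add _ _ hz (hN.map σ hσinc z hz)
      convert this using 2 with v
      rw [h7, h4]
      ring
    have h9 : (fun v => rtE D g * z₁ v) ∈ N := by
      apply hN.half
      have := hN.add _ _ hz (hN.neg _ (hN.map σ hσinc z hz))
      convert this using 2 with v
      rw [h7, h4]
      ring
    rw [h4 v₀]
    apply hC
    · apply ih hΓD N hN C hC v₀ _ z₀ h8 h2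
      intro U hU a ha
      exact key U (hU.trans (Finset.subset_insert _ _)) a ha
    · have hN' : Closed D {y | (fun v => rtE D g * y v) ∈ N} := by
        refine ⟨fun y w hy hw => ?_, fun y hy => ?_, fun y hy => ?_, fun τ hτ y hy => ?_⟩
        · have := hN.add _ _ hy hw
          simp only [Set.mem_ofPred_eq]
          convert this using 2 with v
          ring
        · have := hN.neg _ hy
          simp only [Set.mem_ofPred_eq]
          convert this using 2 with v
          ring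
        · simp only [Set.mem_ofPred_eq] at hy ⊢
          apply hN.half
          convert hy using 2 with v
          ring
        · simp only [Set.mem_ofPred_eq] at hy ⊢
          have h10 := hN.map τ hτ _ hy
          have h11 : τ (rtE D g) ^ 2 = rtE D g ^ 2 := by
            rw [← map_pow, rtE_sq hgD, hτ]
          rcases sq_eq_sq_iff_eq_or_eq_neg.1 h11 with h12 | h12
          · convert h10 using 2 with v
            rw [map_mul, h12]
          · convert hN.neg _ h10 using 2 with v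
            rw [map_mul, h12]
            ring
      have := ih hΓD _ hN' {y | rtE D g * y ∈ C} (by
        intro x y hx hy
        simp only [Set.mem_ofPred_eq] at hx hy ⊢
        rw [mul_add]
        exact hC _ _ hx hy) v₀ (by
        intro U hU a ha
        simp only [Set.mem_ofPred_eq] at ha ⊢
        have hgU : g ∉ U := fun h => hg (hU h)
        have h13 := key (insert g U) (Finset.insert_subset_insert _ hU) a
        rw [Finset.prod_insert hgU] at h13
        have h14 := h13 (by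
          convert ha using 2 with v
          ring)
        convert h14 using 1
        ring) z₁ h9 h3
      exact this

end Pool.Agent.H.MP_7de982_lc
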