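import Mathlib
import Pool.Agent.H.MP_7de982_lc.Comp

namespace Pool.Agent.H.MP_7de982_lc

open IntermediateField

section
open Polynomial

/-- The sextic. -/
noncomputable def gp (a : ℤ) : ℤ[X] := -((X ^ 2 + 1) * (X ^ 2 + 2) * (X ^ 2 + X + C a))

theorem ev_gp {R : Type*} [CommRing R] (a : ℤ) (z : R) :
    ev (gp a) z = -((z ^ 2 + 1) * (z ^ 2 + 2) * (z ^ 2 + z + a)) := by
  simp only [ev, gp, eval₂_neg, eval₂_mul, eval₂_add, eval₂_X_pow, eval₂_X, eval₂_C, eval₂_one,
    eval₂_ofNat, Int.coe_castRingHom]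

theorem gp_eq (a : ℤ) : gp a = -(X ^ 6 + X ^ 5 + C (a + 3) * X ^ 4 + C 3 * X ^ 3 +
    C (3 * a + 2) * X ^ 2 + C 2 * X + C (2 * a)) := by
  unfold gp
  simp only [map_add, map_mul]
  have h3 : (C (3:ℤ) : ℤ[X]) = 3 := rfl
  have h2 : (C (2:ℤ) : ℤ[X]) = 2 := rfl
  rw [h3, h2]
  ring

theorem natDegree_gp (a : ℤ) : (gp a).natDegree = 6 := by
  rw [gp_eq, natDegree_neg]
  compute_degree!

theorem ev_dgp {R : Type*} [CommRing R] (a : ℤ) (z : R) :
    ev (derivative (gp a)) z = -(6 * z ^ 5 + 5 * z ^ 4 + 4 * (a + 3) * z ^ 3 + 9 * z ^ 2 +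
      2 * (3 * a + 2) * z + 2) := by
  rw [gp_eq]
  have e : derivative (-(X ^ 6 + X ^ 5 + C (a + 3) * X ^ 4 + C 3 * X ^ 3 +
    C (3 * a + 2) * X ^ 2 + C 2 * X + C (2 * a))) = -(C 6 * X ^ 5 + C 5 * X ^ 4 +
      C (4 * (a + 3)) * X ^ 3 + C 9 * X ^ 2 + C (2 * (3 * a + 2)) * X + C 2) := by
    simp only [derivative_neg, derivative_mul, derivative_X_pow, derivative_C,
      derivative_X, map_mul, map_add]
    have h (n : ℤ) : (C n : ℤ[X]) = n := by simp
    simp only [h]
    push_cast
    ring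
  rw [e]
  simp only [ev, eval₂_neg, eval₂_add, eval₂_mul, eval₂_C, eval₂_X, eval₂_X_pow,
    Int.coe_castRingHom]
  push_cast
  ring

theorem gp_sep {F : Type*} [Field F] [CharZero F] {a : ℤ} (ha : a = 1 ∨ a = 2) (c : F)
    (hc : ev (gp a) c = 0) : ev (derivative (gp a)) c ≠ 0 := by
  intro h
  rw [ev_gp] at hc
  rw [ev_dgp] at h
  rcases ha with rfl | rfl
  · have : (12 : F) = 0 := by
      push_cast at hc h
      linear_combination (-2 + 41*c + 96*c^2 + 45*c^3 + 54*c^4) * hc +
        (-4 - 19*c - 19*c^2 - 28*c^3 - 9*c^4 - 9*c^5) * h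
    norm_num at this
  · have : (56 : F) = 0 := by
      push_cast at hc h
      linear_combination (-44 - 229*c - 48*c^2 - 57*c^3 + 18*c^4) * hc +
        (60 + 22*c + 55*c^2 + 5*c^3 + 9*c^4 - 3*c^5) * h
    norm_num at this

end

universe u
variable {V : Type u}

/-- The linear forms coding the edges. -/
noncomputable def lin (m n : ℤ) (v w : V) : MvPolynomial V ℤ :=
  (m : MvPolynomial V ℤ) * MvPolynomial.X v + (n : MvPolynomial V ℤ) * MvPolynomial.X w +
    (((m - 1) * (n - 1) : ℤ) : MvPolynomial V ℤ)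

open scoped Classical in
/-- The generators. -/
noncomputable def gen (c : V → V → ℤ) (v w : V) : MvPolynomial V ℤ :=
  if v = w then ev (gp (c v v)) (MvPolynomial.X v) else lin (c w v) (c v w) v w

theorem gen_self (c : V → V → ℤ) (v : V) : gen c v v = ev (gp (c v v)) (MvPolynomial.X v) :=
  if_pos rfl

theorem gen_ne (c : V → V → ℤ) {v w : V} (h : v ≠ w) : gen c v w = lin (c w v) (c v w) v w :=
  if_neg h

theorem lin_symm (m n : ℤ) (v w : V) : lin m n v w = lin n m w v := by
  unfold lin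
  rw [mul_comm (m - 1)]
  ring

theorem gen_symm (c : V → V → ℤ) (v w : V) : gen c v w = gen c w v := by
  by_cases h : v = w
  · rw [h]
  · rw [gen_ne c h, gen_ne c (Ne.symm h), lin_symm]

/-- The set of generators. -/
def gens (c : V → V → ℤ) : Set (MvPolynomial V ℤ) := {q | ∃ v w, q = gen c v w}

theorem kap_lin_self {m n : ℤ} {k w : V} (h : w ≠ k) : kap k (lin m n k w) =
    Polynomial.C (m : Om V) * Polynomial.X +
      Polynomial.C ((n : Om V) * xx w + (((m - 1) * (n - 1) : ℤ) : Om V)) := by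
  unfold lin
  rw [map_add, map_add, map_mul, map_mul, map_intCast, map_intCast, map_intCast, kap_self,
    kap_ne h]
  simp only [map_add, map_mul, map_intCast]
  ring

theorem eval_lin_self {m n : ℤ} {k w : V} (h : w ≠ k) (a : Om V) :
    (kap k (lin m n k w)).eval a = m * a + n * xx w + (((m - 1) * (n - 1) : ℤ) : Om V) := by
  rw [kap_lin_self h]
  simp only [Polynomial.eval_add, Polynomial.eval_mul, Polynomial.eval_C, Polynomial.eval_X]
  ring

theorem kap_ev_self (g : Polynomial ℤ) (k : V) :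
    kap k (ev g (MvPolynomial.X k)) = ev g Polynomial.X := by
  rw [map_ev, kap_self]

theorem ev_X {R : Type*} [CommRing R] (g : Polynomial ℤ) :
    ev g (Polynomial.X : Polynomial R) = g.map (Int.castRingHom R) := by
  unfold ev
  induction g using Polynomial.induction_on' with
  | add p q hp hq => rw [Polynomial.eval₂_add, Polynomial.map_add, hp, hq]
  | monomial n a =>
    rw [Polynomial.eval₂_monomial, Polynomial.map_monomial, ← Polynomial.C_mul_X_pow_eq_monomial]
    congr 1

theorem eval_ev_self (g : Polynomial ℤ) (k : V) (a : Om V) :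
    (kap k (ev g (MvPolynomial.X k))).eval a = ev g a := by
  rw [kap_ev_self, ev_X, ev_eq]

theorem eval_d_ev_self (g : Polynomial ℤ) (k : V) (a : Om V) :
    (Polynomial.derivative (kap k (ev g (MvPolynomial.X k)))).eval a =
      ev (Polynomial.derivative g) a := by
  rw [kap_ev_self, ev_X, ev_eq, Polynomial.derivative_map]

theorem kap_const {c : V → V → ℤ} {k v w : V} (hv : v ≠ k) (hw : w ≠ k) :
    kap k (gen c v w) = Polynomial.C (inc (gen c v w)) := by
  by_cases h : v = w
  · subst h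
    rw [gen_self, map_ev, map_ev, kap_ne hv, map_ev]
    rfl
  · rw [gen_ne c h]
    unfold lin
    simp only [map_add, map_mul, map_intCast, kap_ne hv, kap_ne hw]
    rfl

theorem del_xx (u v : V) [Decidable (u = v)] : del v (xx u) = if u = v then 1 else 0 := by
  split_ifs with h
  · rw [h]; exact del_self v
  · exact del_ne h

/-- Roots of generators. -/
theorem gen_root {c : V → V → ℤ} (hc : ∀ v w, c v w = 1 ∨ c v w = 2) {k w : V} {a : Om V}
    (h : (kap k (gen c k w)).eval a = 0) : (∀ u, u ≠ w → del u a = 0) ∧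
      (w ≠ k → del w a ≠ 0) ∧ (Polynomial.derivative (kap k (gen c k w))).eval a ≠ 0 := by
  by_cases hw : w = k
  · subst hw
    rw [gen_self, eval_ev_self] at h
    rw [gen_self, eval_d_ev_self]
    have h1 := gp_sep (hc w w) a h
    refine ⟨fun u _ => ?_, fun h => absurd rfl h, h1⟩
    have h2 := (del_isDer u).ev (gp (c w w)) a
    rw [h, (del_isDer u).zero] at h2
    exact (mul_eq_zero.1 h2.symm).resolve_left h1
  · rw [gen_ne c (Ne.symm hw), eval_lin_self hw] at h
    rw [gen_ne c (Ne.symm hw), kap_lin_self hw]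
    have hm : ((c w k : ℤ) : Om V) ≠ 0 := by
      rcases hc w k with h | h <;> rw [h] <;> norm_num
    have hn : ((c k w : ℤ) : Om V) ≠ 0 := by
      rcases hc k w with h | h <;> rw [h] <;> norm_num
    have h1 : ∀ u, (c w k : Om V) * del u a + (c k w : Om V) * del u (xx w) = 0 := by
      intro u
      have := congrArg (del u) h
      rw [(del_isDer u).add, (del_isDer u).add, (del_isDer u).mul, (del_isDer u).mul,
        (del_isDer u).int, (del_isDer u).int, (del_isDer u).int, (del_isDer u).zero] at this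
      simpa using this
    refine ⟨fun u hu => ?_, fun _ h2 => ?_, ?_⟩
    · have := h1 u
      rw [del_ne (Ne.symm hu), mul_zero, add_zero] at this
      exact (mul_eq_zero.1 this).resolve_left hm
    · have := h1 w
      rw [del_self, h2, mul_zero, zero_add, mul_one] at this
      exact hn this
    · simpa using hm

theorem gen_ne_zero {c : V → V → ℤ} (hc : ∀ v w, c v w = 1 ∨ c v w = 2) (v w : V) :
    gen c v w ≠ 0 := by
  intro h
  have h1 : (kap v (gen c v w)).eval (xx v) = 0 := by rw [h]; simp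
  obtain ⟨h2, h3, h4⟩ := gen_root hc h1
  rw [h] at h4
  simp at h4

theorem gens_root_form {c : V → V → ℤ} (hc : ∀ v w, c v w = 1 ∨ c v w = 2)
    {q : MvPolynomial V ℤ} (hq : q ∈ gens c) {k : V} {a : Om V} (h : (kap k q).eval a = 0) :
    ∃ w, q = gen c k w := by
  obtain ⟨v, w, rfl⟩ := hq
  by_cases hv : v = k
  · exact ⟨w, by rw [hv]⟩
  by_cases hw : w = k
  · exact ⟨v, by rw [hw, gen_symm]⟩
  rw [kap_const hv hw, Polynomial.eval_C, map_eq_zero_iff _ inc_injective] at h
  exact absurd h (gen_ne_zero hc v w)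

theorem gens_common {c : V → V → ℤ} (hc : ∀ v w, c v w = 1 ∨ c v w = 2)
    {q q' : MvPolynomial V ℤ} (hq : q ∈ gens c) (hq' : q' ∈ gens c) {k : V} {a : Om V}
    (h : (kap k q).eval a = 0) (h' : (kap k q').eval a = 0) : q = q' := by
  obtain ⟨w, rfl⟩ := gens_root_form hc hq h
  obtain ⟨w', rfl⟩ := gens_root_form hc hq' h'
  obtain ⟨h1, h2, -⟩ := gen_root hc h
  obtain ⟨h3, h4, -⟩ := gen_root hc h'
  by_cases hw : w = w'
  · rw [hw]
  exfalso
  by_cases hk : w = k
  · have hk' : w' ≠ k := fun h => hw (hk.trans h.symm)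
    exact h4 hk' (h1 w' (Ne.symm hw))
  · exact h2 hk (h3 w hw)

theorem gens_sep {c : V → V → ℤ} (hc : ∀ v w, c v w = 1 ∨ c v w = 2)
    {q : MvPolynomial V ℤ} (hq : q ∈ gens c) {k : V} {a : Om V} (h : (kap k q).eval a = 0) :
    (Polynomial.derivative (kap k q)).eval a ≠ 0 := by
  obtain ⟨w, rfl⟩ := gens_root_form hc hq h
  exact (gen_root hc h).2.2

theorem natDegree_kap_self {c : V → V → ℤ} (k : V) :
    (kap k (gen c k k)).natDegree = 6 := by
  rw [gen_self, kap_ev_self, ev_X, Polynomial.natDegree_map_eq_of_injective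
    (RingHom.injective_int _), natDegree_gp]

theorem natDegree_kap_ne {c : V → V → ℤ} (hc : ∀ v w, c v w = 1 ∨ c v w = 2) {k w : V}
    (h : w ≠ k) : (kap k (gen c k w)).natDegree = 1 := by
  rw [gen_ne c (Ne.symm h), kap_lin_self h]
  have hm : ((c w k : ℤ) : Om V) ≠ 0 := by
    rcases hc w k with h | h <;> rw [h] <;> norm_num
  exact Polynomial.natDegree_linear hm

/-- Independence of the generators. -/
theorem gens_indep {c : V → V → ℤ} (hc : ∀ v w, c v w = 1 ∨ c v w = 2) :
    ∀ g ∈ gens c, rt g ∉ KD (gens c \ {g}) := by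
  rintro g ⟨k, w, rfl⟩ hmem
  have hdeg : (kap k (gen c k w)).degree ≠ 0 := by
    intro h
    have h1 := Polynomial.natDegree_eq_of_degree_eq_some h
    by_cases hw : w = k
    · subst hw
      rw [natDegree_kap_self] at h1
      norm_num at h1
    · rw [natDegree_kap_ne hc hw] at h1
      norm_num at h1
  obtain ⟨a, ha⟩ := IsAlgClosed.exists_root _ hdeg
  have ha' : (kap k (gen c k w)).eval a = 0 := ha
  refine not_sq (D := gens c \ {gen c k w}) (k := k) (a := a) (fun q hq h => ?_) ha'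
    (gens_sep hc ⟨k, w, rfl⟩ ha') ⟨_, hmem⟩ (Subtype.ext (rt_sq _))
  exact hq.2 (gens_common hc hq.1 ⟨k, w, rfl⟩ h ha')

end Pool.Agent.H.MP_7de982_lc
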