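import Mathlib
import Pool.Agent.H.MP_7de982_lc.Graph

namespace Pool.Agent.H.MP_7de982_lc

open IntermediateField Polynomial

universe u
variable {V : Type u}

/-- `h` is represented by the polynomial `f` in the variable `k`. -/
def Rep (k : V) (h : Om V) (f : (Om V)[X]) : Prop :=
  ∃ p q : MvPolynomial V ℤ, q ≠ 0 ∧ h = inc p / inc q ∧ kap k p = kap k q * f

theorem inc_ne_zero {q : MvPolynomial V ℤ} (hq : q ≠ 0) : inc q ≠ 0 := by
  rwa [Ne, map_eq_zero_iff _ inc_injective]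

theorem Rep.eval_eq {k : V} {h : Om V} {f : (Om V)[X]} (hr : Rep k h f) :
    h = f.eval (xx k) := by
  obtain ⟨p, q, hq, h1, h2⟩ := hr
  rw [h1, div_eq_iff (inc_ne_zero hq), ← eval_kap k p, h2, eval_mul, eval_kap, mul_comm]

theorem Rep.del {k : V} {h : Om V} {f : (Om V)[X]} (hr : Rep k h f) :
    Rep k (Pool.Agent.H.MP_7de982_lc.del k h) (derivative f) := by
  obtain ⟨p, q, hq, h1, h2⟩ := hr
  refine ⟨q * MvPolynomial.pderiv k p - p * MvPolynomial.pderiv k q, q ^ 2, pow_ne_zero 2 hq,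
    ?_, ?_⟩
  · rw [h1, (del_isDer k).div _ (inc_ne_zero hq), del_inc, del_inc]
    simp
  · have h3 := congrArg derivative h2
    rw [derivative_mul, derivative_kap, derivative_kap] at h3
    rw [map_sub, map_mul, map_mul, map_pow, h3, h2]
    ring

theorem evC_mul {F : Type*} [Field F] (f g : F[X]) (ξ : LaurentSeries F) :
    evC (f * g) ξ = evC f ξ * evC g ξ := map_mul (evCHom ξ) f g

theorem ord_dvd {F : Type*} [Field F] [IsAlgClosed F] {Q R : F[X]} (hQ : Q ≠ 0)
    (h : ∀ x, ∃ w r : LaurentSeries F, w * r * evC Q (loc x 2) = evC R (loc x 2) ∧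
      Og (-1) w ∧ Og 0 r) : Q ∣ R := by
  classical
  by_cases hR : R = 0
  · rw [hR]; exact dvd_zero _
  apply (IsAlgClosed.splits Q).dvd_of_roots_le_roots hQ
  rw [Multiset.le_iff_count]
  intro x
  rw [count_roots, count_roots]
  obtain ⟨w, r, h1, h2, h3⟩ := h x
  obtain ⟨h4, -⟩ := evC_loc hQ (a := x) (e := 2) (by norm_num)
  obtain ⟨-, h5⟩ := evC_loc hR (a := x) (e := 2) (by norm_num)
  have h6 := (h2.mul h3).mul h4
  rw [h1] at h6
  have h7 := h6.le h5
  omega

theorem poly_data {D : Set (MvPolynomial V ℤ)} (h0 : ∀ q ∈ D, q ≠ 0)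
    {U : Finset (MvPolynomial V ℤ)} (hU : (U : Set (MvPolynomial V ℤ)) ⊆ D) {a : V → K0 V}
    (hreg : Reg D (fun v => algebraMap (K0 V) (KD D) (a v) * ∏ g ∈ U, rtE D g)) (k : V) :
    ∃ f : V → (Om V)[X],
      (∀ v, Rep k (algebraMap (K0 V) (Om V) (a v) * inc (∏ g ∈ U, g)) (f v)) ∧
      (f k ≠ 0 → 2 * (f k).natDegree + 3 ≤ (kap k (∏ g ∈ U, g)).natDegree) ∧
      ∀ i, i ≠ k → (f i ≠ 0 → 2 * (f i).natDegree ≤ (kap k (∏ g ∈ U, g)).natDegree) ∧
        ∀ x, (kap k (∏ g ∈ U, g)).eval x = 0 → (f i).eval x + del i x * (f k).eval x = 0 := by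
  have hG0 : ∏ g ∈ U, g ≠ 0 := Finset.prod_ne_zero_iff.2 fun q hq => h0 q (hU hq)
  have hP0 : kap k (∏ g ∈ U, g) ≠ 0 := kap_ne_zero hG0
  choose p q hq hpq using fun v => exists_fracD D (a v)
  have hq' : ∀ v, q v ≠ 0 := by
    intro v h
    apply hq v
    rw [h, map_zero]
  have hQ0 : ∀ v, kap k (q v) ≠ 0 := fun v => kap_ne_zero (hq' v)
  set z : V → KD D := fun v => algebraMap (K0 V) (KD D) (a v) * ∏ g ∈ U, rtE D g with hz
  have hrsq : (∏ g ∈ U, rtE D g) ^ 2 = incD D (∏ g ∈ U, g) := by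
    rw [← Finset.prod_pow, map_prod]
    exact Finset.prod_congr rfl fun g hg => rtE_sq (hU hg)
  have key : ∀ ξ ι, Place D k ξ ι → (ι (∏ g ∈ U, rtE D g)) ^ 2 = evC (kap k (∏ g ∈ U, g)) ξ ∧
      ∀ v, ι (z v) * ι (∏ g ∈ U, rtE D g) * evC (kap k (q v)) ξ =
        evC (kap k (p v * ∏ g ∈ U, g)) ξ := by
    intro ξ ι h
    refine ⟨by rw [← map_pow, hrsq, h], fun v => ?_⟩
    rw [← h, ← h, ← map_mul, ← map_mul]
    congr 1
    rw [hz]
    beta_reduce
    rw [hpq, map_mul, ← hrsq]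
    field_simp [hq v]
  have hloc : ∀ x : Om V, ∃ ι, Place D k (loc x 2) ι := fun x =>
    exists_place (loc_ne (by norm_num)) fun q hq => evC_loc_sq (kap_ne_zero (h0 q hq)) x
  -- order of the values at finite places
  have hzk : ∀ x ι, Place D k (loc x 2) ι → Og (-1) (ι (z k)) := by
    intro x ι h
    obtain ⟨h1, -⟩ := hreg k _ ι h
    rw [theta_loc] at h1
    have h2 := h1.mul (og_single (-2) ((1:Om V) / 2))
    rw [mul_assoc, HahnSeries.single_mul_single] at h2
    have h3 : (HahnSeries.single ((2:ℤ) + -2) (((2:ℤ) : Om V) * (1 / 2)) : LaurentSeries (Om V)) = 1 := by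
      norm_num
    rw [h3, mul_one] at h2
    exact h2
  have hzi : ∀ v x ι, Place D k (loc x 2) ι → Og (-1) (ι (z v)) := by
    intro v x ι h
    by_cases hv : v = k
    · rw [hv]; exact hzk x ι h
    obtain ⟨-, h1⟩ := hreg k _ ι h
    have h2 := h1 v hv
    unfold nb at h2
    rw [nab_loc (del_isDer v)] at h2
    have h3 := (hzk x ι h).mul (og_C (del v x))
    have h4 := (h2.mono (show (-1:ℤ) + 0 ≤ 0 by norm_num)).sub h3
    rw [add_sub_cancel_right] at h4
    exact h4
  have hr0 : ∀ x ι, Place D k (loc x 2) ι → Og 0 (ι (∏ g ∈ U, rtE D g)) := by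
    intro x ι h
    obtain ⟨h1, h2⟩ := evC_loc hP0 (a := x) (e := 2) (by norm_num)
    obtain ⟨m, h3, h4, -⟩ := sq_ord (key _ ι h).1 h1 h2
    exact h4.mono (by omega)
  have hdvd : ∀ v, kap k (q v) ∣ kap k (p v * ∏ g ∈ U, g) := by
    intro v
    apply ord_dvd (hQ0 v)
    intro x
    obtain ⟨ι, h⟩ := hloc x
    exact ⟨_, _, (key _ ι h).2 v, hzi v x ι h, hr0 x ι h⟩
  choose f hf using hdvd
  have hval : ∀ ξ ι, (∀ b, ξ ≠ HahnSeries.C b) → Place D k ξ ι → ∀ v,
      ι (z v) * ι (∏ g ∈ U, rtE D g) = evC (f v) ξ := by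
    intro ξ ι hξ h v
    have h1 := (key _ ι h).2 v
    rw [hf v, evC_mul, mul_comm] at h1
    exact mul_left_cancel₀ (evC_ne_zero hξ (hQ0 v)) h1
  refine ⟨f, fun v => ⟨p v * ∏ g ∈ U, g, q v, hq' v, ?_, hf v⟩, ?_, fun i hi => ⟨?_, ?_⟩⟩
  · have h1 : algebraMap (K0 V) (Om V) (a v) = inc (p v) / inc (q v) :=
      congrArg (fun y : KD D => (y : Om V)) (hpq v)
    rw [h1, map_mul]
    ring
  · intro hfk
    obtain ⟨ι, h⟩ := exists_place (D := D) (k := k) (ξ := HahnSeries.single (-2) 1)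
      (single_ne (by norm_num)) fun q hq => evC_poleAt_sq (kap_ne_zero (h0 q hq))
    obtain ⟨h1, h2⟩ := evC_poleAt hP0
    obtain ⟨m, h3, h4, -⟩ := sq_ord (key _ ι h).1 h1 h2
    obtain ⟨h5, -⟩ := hreg k _ ι h
    rw [theta_single] at h5
    have h6 := h5.mul (og_single 2 (-(1:Om V) / 2))
    rw [mul_assoc, HahnSeries.single_mul_single] at h6
    have h7 : (HahnSeries.single ((-2:ℤ) + 2) (((-2:ℤ) : Om V) * 1 * (-1 / 2)) :
        LaurentSeries (Om V)) = 1 := by
      norm_num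
    rw [h7, mul_one] at h6
    have h8 := h6.mul h4
    rw [hval _ ι (single_ne (by norm_num)) h k] at h8
    have h9 := h8.le (evC_poleAt hfk).2
    omega
  · intro hfi
    obtain ⟨ι, h⟩ := exists_place (D := D) (k := k) (ξ := HahnSeries.single (-2) 1)
      (single_ne (by norm_num)) fun q hq => evC_poleAt_sq (kap_ne_zero (h0 q hq))
    obtain ⟨h1, h2⟩ := evC_poleAt hP0
    obtain ⟨m, h3, h4, -⟩ := sq_ord (key _ ι h).1 h1 h2
    obtain ⟨-, h5⟩ := hreg k _ ι h
    have h6 := h5 i hi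
    unfold nb at h6
    rw [nab_single (del_isDer i).zero (del_isDer i).one, mul_zero, add_zero] at h6
    have h8 := h6.mul h4
    rw [hval _ ι (single_ne (by norm_num)) h i] at h8
    have h9 := h8.le (evC_poleAt hfi).2
    omega
  · intro x hx
    obtain ⟨ι, h⟩ := hloc x
    obtain ⟨h1, h2⟩ := evC_loc hP0 (a := x) (e := 2) (by norm_num)
    obtain ⟨m, h3, h4, -⟩ := sq_ord (key _ ι h).1 h1 h2
    have h5 : 0 < (kap k (∏ g ∈ U, g)).rootMultiplicity x :=
      (rootMultiplicity_pos hP0).2 hx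
    have h6 : Og 1 (ι (∏ g ∈ U, rtE D g)) := h4.mono (by omega)
    obtain ⟨-, h7⟩ := hreg k _ ι h
    have h8 := h7 i hi
    unfold nb at h8
    rw [nab_loc (del_isDer i)] at h8
    have h9 := h8.mul h6
    have h10 : (ι (z i) + ι (z k) * HahnSeries.C (del i x)) * ι (∏ g ∈ U, rtE D g) =
        evC (f i) (loc x 2) + evC (C (del i x) * f k) (loc x 2) := by
      rw [evC_mul, ← hval _ ι (loc_ne (by norm_num)) h i, ← hval _ ι (loc_ne (by norm_num)) h k]
      have : evC (C (del i x)) (loc x 2) = HahnSeries.C (del i x) := by simp [evC]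
      rw [this]
      ring
    have h11 : Og (0 + 1) ((ι (z i) + ι (z k) * HahnSeries.C (del i x)) *
      ι (∏ g ∈ U, rtE D g)) := h9
    rw [h10] at h11
    have h12 := h11 0 (by norm_num)
    have h13 := loc_og (a := x) (e := 2) (by norm_num)
    rw [HahnSeries.coeff_add, (evC_og h13.1).2, (evC_og h13.1).2, h13.2] at h12
    simpa using h12

theorem coprime_of_roots {F : Type*} [Field F] [IsAlgClosed F] {p q : F[X]}
    (h : ∀ b, p.eval b = 0 → q.eval b = 0 → False) : IsCoprime p q := by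
  rw [isCoprime_iff_aeval_ne_zero_of_isAlgClosed F F]
  intro b
  by_contra h1
  push Not at h1
  rw [coe_aeval_eq_eval] at h1
  exact h b h1.1 h1.2

theorem sep_prod {c : V → V → ℤ} (hc : ∀ v w, c v w = 1 ∨ c v w = 2)
    {S : Finset (MvPolynomial V ℤ)} (hS : (S : Set (MvPolynomial V ℤ)) ⊆ gens c) (k : V) :
    (∏ g ∈ S, kap k g).Separable := by
  apply separable_prod'
  · intro x hx y hy hxy
    exact coprime_of_roots fun b h1 h2 => hxy (gens_common hc (hS hx) (hS hy) h1 h2)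
  · intro x hx
    exact coprime_of_roots fun b h1 h2 => gens_sep hc (hS hx) h1 h2

theorem dvd_of_roots {F : Type*} [Field F] [IsAlgClosed F] {P f : F[X]} (hP : P.Separable)
    (hf : f ≠ 0) (h : ∀ x, P.eval x = 0 → f.eval x = 0) : P ∣ f := by
  apply (IsAlgClosed.splits P).dvd_of_roots_le_roots hP.ne_zero
  rw [Multiset.le_iff_subset (nodup_roots hP)]
  intro x hx
  rw [mem_roots hf]
  exact h x ((mem_roots hP.ne_zero).1 hx)

theorem core {c : V → V → ℤ} (hc : ∀ v w, c v w = 1 ∨ c v w = 2)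
    {U : Finset (MvPolynomial V ℤ)} (hU : (U : Set (MvPolynomial V ℤ)) ⊆ gens c) {a : V → K0 V}
    (hreg : Reg (gens c) (fun v => algebraMap (K0 V) (KD (gens c)) (a v) *
      ∏ g ∈ U, rtE (gens c) g)) {i : V} (hi : a i ≠ 0) :
    U = {gen c i i} ∧
      (∀ k, k ≠ i → del k (algebraMap (K0 V) (Om V) (a i) * inc (∏ g ∈ U, g)) = 0) ∧
      del i (del i (algebraMap (K0 V) (Om V) (a i) * inc (∏ g ∈ U, g))) = 0 := by
  classical
  have h0 : ∀ q ∈ gens c, q ≠ 0 := by
    rintro q ⟨v, w, rfl⟩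
    exact gen_ne_zero hc v w
  have hG0 : ∏ g ∈ U, g ≠ 0 := Finset.prod_ne_zero_iff.2 fun q hq => h0 q (hU hq)
  have hh0 : algebraMap (K0 V) (Om V) (a i) * inc (∏ g ∈ U, g) ≠ 0 :=
    mul_ne_zero (by rwa [Ne, map_eq_zero]) (inc_ne_zero hG0)
  set h := algebraMap (K0 V) (Om V) (a i) * inc (∏ g ∈ U, g) with hh
  have hP : ∀ k, kap k (∏ g ∈ U, g) = ∏ g ∈ U, kap k g := fun k => map_prod _ _ _
  have stepA : ∀ k, k ≠ i → (kap k (∏ g ∈ U, g)).natDegree = 0 ∧ del k h = 0 := by
    intro k hk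
    obtain ⟨f, hf1, hf2, hf3⟩ := poly_data h0 hU hreg k
    obtain ⟨h1, h2⟩ := hf3 i (Ne.symm hk)
    have hrep := hf1 i
    rw [← hh] at hrep
    have hfi : f i ≠ 0 := by
      intro h3
      apply hh0
      rw [hrep.eval_eq, h3, eval_zero]
    have h3 := h1 hfi
    have hS : ((U.erase (gen c k i) : Finset (MvPolynomial V ℤ)) : Set (MvPolynomial V ℤ)) ⊆
        gens c := fun q hq => hU (Finset.mem_of_mem_erase hq)
    have h4 : (∏ g ∈ U.erase (gen c k i), kap k g) ∣ f i := by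
      apply dvd_of_roots (sep_prod hc hS k) hfi
      intro x hx
      rw [eval_prod, Finset.prod_eq_zero_iff] at hx
      obtain ⟨g, hg, hx⟩ := hx
      obtain ⟨w, rfl⟩ := gens_root_form hc (hS hg) hx
      have hw : i ≠ w := by
        rintro rfl
        exact (Finset.mem_erase.1 hg).1 rfl
      have h5 := (gen_root hc hx).1 i hw
      have h6 : (kap k (∏ g ∈ U, g)).eval x = 0 := by
        rw [hP, eval_prod, Finset.prod_eq_zero_iff]
        exact ⟨_, Finset.mem_of_mem_erase hg, hx⟩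
      have h7 := h2 x h6
      rwa [h5, zero_mul, add_zero] at h7
    have h5 := natDegree_le_of_dvd h4 hfi
    have h6 : (kap k (∏ g ∈ U, g)).natDegree ≤
        (∏ g ∈ U.erase (gen c k i), kap k g).natDegree + 1 := by
      rw [hP]
      by_cases hW : gen c k i ∈ U
      · rw [← Finset.mul_prod_erase U _ hW]
        refine natDegree_mul_le.trans ?_
        rw [natDegree_kap_ne hc (Ne.symm hk)]
        omega
      · rw [Finset.erase_eq_of_notMem hW]
        omega
    have hfk : f k = 0 := by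
      by_contra h7
      have := hf2 h7
      omega
    have h7 : (kap k (∏ g ∈ U, g)) ∣ f i := by
      rw [hP]
      apply dvd_of_roots (sep_prod hc hU k) hfi
      intro x hx
      have := h2 x (by rw [hP]; exact hx)
      rwa [hfk, eval_zero, mul_zero, add_zero] at this
    have h8 := natDegree_le_of_dvd h7 hfi
    refine ⟨by omega, ?_⟩
    rw [hrep.del.eval_eq, eq_C_of_natDegree_eq_zero (show (f i).natDegree = 0 by omega)]
    simp
  have hsub : ∀ v w, gen c v w ∈ U → v = i := by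
    intro v w hg
    by_contra hv
    obtain ⟨h1, -⟩ := stepA v hv
    have h2 : kap v (gen c v w) ∣ kap v (∏ g ∈ U, g) := by
      rw [hP]
      exact Finset.dvd_prod_of_mem (fun g => kap v g) hg
    have h3 := natDegree_le_of_dvd h2 (kap_ne_zero hG0)
    by_cases hw : w = v
    · subst hw
      rw [natDegree_kap_self] at h3
      omega
    · rw [natDegree_kap_ne hc hw] at h3
      omega
  have hsub' : ∀ g ∈ U, g = gen c i i := by
    intro g hg
    obtain ⟨v, w, rfl⟩ := hU hg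
    have h1 := hsub v w hg
    rw [gen_symm] at hg
    have h2 := hsub w v hg
    rw [h1, h2]
  obtain ⟨f, hf1, hf2, -⟩ := poly_data h0 hU hreg i
  have hrep := hf1 i
  rw [← hh] at hrep
  have hfi : f i ≠ 0 := by
    intro h3
    apply hh0
    rw [hrep.eval_eq, h3, eval_zero]
  have h1 := hf2 hfi
  have hUe : U = {gen c i i} := by
    rw [Finset.eq_singleton_iff_nonempty_unique_mem]
    refine ⟨?_, hsub'⟩
    rw [Finset.nonempty_iff_ne_empty]
    intro h2
    rw [h2] at h1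
    simp at h1
  refine ⟨hUe, fun k hk => (stepA k hk).2, ?_⟩
  have h2 : (kap i (∏ g ∈ U, g)).natDegree = 6 := by
    rw [hUe, Finset.prod_singleton, natDegree_kap_self]
  rw [h2] at h1
  rw [hrep.del.del.eval_eq]
  have h3 : (f i).natDegree < 2 := by omega
  have h4 : derivative (derivative (f i)) = 0 := iterate_derivative_eq_zero h3
  rw [h4, eval_zero]

end Pool.Agent.H.MP_7de982_lc
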