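import Mathlib
import Pool.Agent.H.MP_7de982_lc.Core

namespace Pool.Agent.H.MP_7de982_lc

open IntermediateField

universe u
variable {V : Type u}

theorem eq_C_of_pderiv {p : MvPolynomial V ℤ} (h : ∀ i, MvPolynomial.pderiv i p = 0) :
    p = MvPolynomial.C (MvPolynomial.coeff 0 p) := by
  classical
  ext m
  rw [MvPolynomial.coeff_C]
  split_ifs with hm
  · rw [hm]
  · obtain ⟨i, hi⟩ : ∃ i, m i ≠ 0 := by
      by_contra h1
      push Not at h1
      exact hm (Finsupp.ext fun i => (h1 i).symm)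
    have h1 := MvPolynomial.coeff_pderiv (i := i) p (m - Finsupp.single i 1)
    have h2 : m - Finsupp.single i 1 + Finsupp.single i 1 = m := by
      apply tsub_add_cancel_of_le
      rw [Finsupp.single_le_iff]
      omega
    rw [h i, h2, MvPolynomial.coeff_zero] at h1
    rcases mul_eq_zero.1 h1.symm with h3 | h3
    · exact h3
    · exfalso
      have : (0:ℤ) ≤ (((m - Finsupp.single i 1 : V →₀ ℕ) i : ℕ) : ℤ) := Int.natCast_nonneg _
      omega

theorem totalDegree_pderiv_lt {q : MvPolynomial V ℤ} {i : V}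
    (h : MvPolynomial.pderiv i q ≠ 0) :
    (MvPolynomial.pderiv i q).totalDegree < q.totalDegree := by
  classical
  have key : ∀ s ∈ (MvPolynomial.pderiv i q).support,
      (s.sum fun _ e => e) < q.totalDegree := by
    intro s hs
    rw [MvPolynomial.mem_support_iff, MvPolynomial.coeff_pderiv] at hs
    have h1 : s + Finsupp.single i 1 ∈ q.support := by
      rw [MvPolynomial.mem_support_iff]
      exact left_ne_zero_of_mul hs
    have h2 := MvPolynomial.le_totalDegree h1
    rw [Finsupp.sum_add_index' (fun _ => rfl) (fun _ _ _ => rfl),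
      Finsupp.sum_single_index rfl] at h2
    omega
  obtain ⟨s, hs⟩ := MvPolynomial.support_nonempty.2 h
  have h1 : 0 < q.totalDegree := (Nat.zero_le _).trans_lt (key s hs)
  unfold MvPolynomial.totalDegree
  rw [Finset.sup_lt_iff]
  · exact key
  · exact h1

theorem const_frac (n : ℕ) : ∀ (p q : MvPolynomial V ℤ), q ≠ 0 → q.totalDegree = n →
    ∀ z : Om V, z * inc q = inc p → (∀ v, del v z = 0) → ∃ a b : ℤ, b ≠ 0 ∧ z * b = a := by
  induction n using Nat.strong_induction_on with
  | _ n ih =>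
    intro p q hq hn z hz hd
    have h1 : ∀ v, z * inc (MvPolynomial.pderiv v q) = inc (MvPolynomial.pderiv v p) := by
      intro v
      have := congrArg (del v) hz
      rw [(del_isDer v).mul, hd v, mul_zero, add_zero, del_inc, del_inc] at this
      exact this
    by_cases h : ∃ v, MvPolynomial.pderiv v q ≠ 0
    · obtain ⟨v, hv⟩ := h
      exact ih _ (hn ▸ totalDegree_pderiv_lt hv) _ _ hv rfl z (h1 v) hd
    · push Not at h
      have hqC := eq_C_of_pderiv h
      have hpC : p = MvPolynomial.C (MvPolynomial.coeff 0 p) := by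
        apply eq_C_of_pderiv
        intro v
        apply inc_injective
        rw [← h1 v, h v, map_zero, mul_zero]
      have hinc : ∀ a : ℤ, (inc (MvPolynomial.C a) : Om V) = a := fun a =>
        eq_intCast (inc.comp MvPolynomial.C) a
      refine ⟨MvPolynomial.coeff 0 p, MvPolynomial.coeff 0 q, ?_, ?_⟩
      · intro h2
        apply hq
        rw [hqC, h2, map_zero]
      · rw [hqC, hpC, hinc, hinc] at hz
        exact hz

theorem const_K0 {x : K0 V} (h : ∀ v, del v (algebraMap (K0 V) (Om V) x) = 0) :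
    ∃ a b : ℤ, b ≠ 0 ∧ algebraMap (K0 V) (Om V) x * b = a := by
  obtain ⟨p, q, hq, h1⟩ := exists_frac x
  have hq' : q ≠ 0 := by
    rintro rfl
    simp at hq
  exact const_frac _ p q hq' rfl _ (by rw [h1, div_mul_cancel₀ _ hq]) h

/-- Derivations commute with homomorphisms fixing the polynomials. -/
theorem delD_map {D : Set (MvPolynomial V ℤ)} {σ : KD D →+* KD D}
    (hσ : ∀ p, σ (incD D p) = incD D p) (v : V) (z : KD D) :
    delD D v (σ z) = σ (delD D v z) := by
  refine der_unique (φ := σ) (d := fun z => delD D v (σ z)) (d' := fun z => σ (delD D v z))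
    ((delD_isDer D v).comp_right σ) ((delD_isDer D v).comp_left σ) (fun u => ?_) z
  rw [hσ, delD_inc, hσ]

theorem delD_comm {D : Set (MvPolynomial V ℤ)} (v w : V) (z : KD D) :
    delD D v (delD D w z) = delD D w (delD D v z) := by
  have h1 := delD_isDer D v
  have h2 := delD_isDer D w
  have h3 : IsDer (RingHom.id (KD D)) (fun z => delD D v (delD D w z) - delD D w (delD D v z)) := by
    constructor
    · intro a b
      rw [h2.add, h1.add, h1.add, h2.add]
      ring
    · intro a b
      rw [h2.mul, h1.mul, h1.add, h2.add, h1.mul, h1.mul, h2.mul, h2.mul]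
      simp only [RingHom.id_apply]
      ring
  have h4 : IsDer (RingHom.id (KD D)) (fun _ => (0 : KD D)) := ⟨by simp, by simp⟩
  have h5 := der_unique h3 h4 (fun u => by
    rw [delD_inc, delD_inc, delD_inc, delD_inc]
    classical
    rw [MvPolynomial.pderiv_X, MvPolynomial.pderiv_X]
    simp only [Pi.single_apply]
    split_ifs <;> simp) z
  exact sub_eq_zero.1 h5

theorem exists_finset {D : Set (MvPolynomial V ℤ)} (z : KD D) :
    ∃ Γ : Finset (MvPolynomial V ℤ), (Γ : Set (MvPolynomial V ℤ)) ⊆ D ∧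
      (z : Om V) ∈ KD (Γ : Set (MvPolynomial V ℤ)) := by
  classical
  induction z using KD_ind with
  | hinc q => exact ⟨∅, by simp, inc_mem _ q⟩
  | mem q hq => exact ⟨{q}, by simpa using hq, rt_mem (by simp)⟩
  | add x y hx hy =>
    obtain ⟨Γ, h1, h2⟩ := hx
    obtain ⟨Γ', h3, h4⟩ := hy
    refine ⟨Γ ∪ Γ', by simp [h1, h3], ?_⟩
    exact add_mem (KD_mono (by simp) h2) (KD_mono (by simp) h4)
  | mul x y hx hy =>
    obtain ⟨Γ, h1, h2⟩ := hx
    obtain ⟨Γ', h3, h4⟩ := hy
    refine ⟨Γ ∪ Γ', by simp [h1, h3], ?_⟩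
    exact mul_mem (KD_mono (by simp) h2) (KD_mono (by simp) h4)
  | inv x hx =>
    obtain ⟨Γ, h1, h2⟩ := hx
    exact ⟨Γ, h1, inv_mem h2⟩

theorem odd_mult {c : V → V → ℤ} (hc : ∀ v w, c v w = 1 ∨ c v w = 2)
    {U : Finset (MvPolynomial V ℤ)} (hU : (U : Set (MvPolynomial V ℤ)) ⊆ gens c)
    (hne : U ≠ ∅) {p q : MvPolynomial V ℤ} (hp : p ≠ 0) (hq : q ≠ 0) {a b : ℤ} (hb : b ≠ 0)
    (h : (p ^ 2 * ∏ g ∈ U, g) * b = q ^ 2 * a) : False := by
  classical
  obtain ⟨g, hg⟩ := Finset.nonempty_iff_ne_empty.2 hne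
  obtain ⟨k, w, rfl⟩ := hU hg
  have hdeg : (kap k (gen c k w)).degree ≠ 0 := by
    intro h
    have h1 := Polynomial.natDegree_eq_of_degree_eq_some h
    by_cases hw : w = k
    · subst hw
      rw [natDegree_kap_self] at h1
      norm_num at h1
    · rw [natDegree_kap_ne hc hw] at h1
      norm_num at h1
  obtain ⟨x, hx⟩ := IsAlgClosed.exists_root _ hdeg
  have h0 : ∀ q ∈ gens c, q ≠ 0 := by
    rintro q ⟨v, w, rfl⟩
    exact gen_ne_zero hc v w
  have hG0 : ∏ g ∈ U, g ≠ 0 := Finset.prod_ne_zero_iff.2 fun q hq => h0 q (hU hq)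
  have hb' : (b : MvPolynomial V ℤ) ≠ 0 := Int.cast_ne_zero.2 hb
  have ha' : (a : MvPolynomial V ℤ) ≠ 0 := by
    intro ha
    rw [ha, mul_zero] at h
    exact mul_ne_zero (mul_ne_zero (pow_ne_zero 2 hp) hG0) hb' h
  have h1 := congrArg (fun r => (kap k r).rootMultiplicity x) h
  have hcst : ∀ a : ℤ, (kap k (a : MvPolynomial V ℤ)).rootMultiplicity x = 0 := by
    intro a
    have h2 : ((a : ℤ) : Polynomial (Om V)) = Polynomial.C (a : Om V) := by simp
    rw [map_intCast, h2, Polynomial.rootMultiplicity_C]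
  have n1 := kap_ne_zero (k := k) (pow_ne_zero 2 hp)
  have n2 := kap_ne_zero (k := k) hG0
  have n3 := kap_ne_zero (k := k) hb'
  have n4 := kap_ne_zero (k := k) (pow_ne_zero 2 hq)
  have n5 := kap_ne_zero (k := k) ha'
  have n6 := kap_ne_zero (k := k) hp
  have n7 := kap_ne_zero (k := k) hq
  simp only [map_mul] at h1
  rw [Polynomial.rootMultiplicity_mul (mul_ne_zero (mul_ne_zero n1 n2) n3),
    Polynomial.rootMultiplicity_mul (mul_ne_zero n1 n2), Polynomial.rootMultiplicity_mul
    (mul_ne_zero n4 n5), hcst, hcst, map_pow, map_pow, sq, sq,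
    Polynomial.rootMultiplicity_mul (mul_ne_zero n6 n6),
    Polynomial.rootMultiplicity_mul (mul_ne_zero n7 n7)] at h1
  have h2 : (kap k (∏ g ∈ U, g)).rootMultiplicity x = 1 := by
    apply le_antisymm
    · have := sep_prod hc hU k
      rw [← map_prod] at this
      exact Polynomial.rootMultiplicity_le_one_of_separable this x
    · have : 0 < (kap k (∏ g ∈ U, g)).rootMultiplicity x := by
        rw [Polynomial.rootMultiplicity_pos n2, map_prod, Polynomial.IsRoot,
          Polynomial.eval_prod, Finset.prod_eq_zero_iff]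
        exact ⟨_, hg, hx⟩
      exact this
  rw [h2] at h1
  omega

/-- Constants are rational. -/
theorem const_KD {c : V → V → ℤ} (hc : ∀ v w, c v w = 1 ∨ c v w = 2) (v₀ : V)
    {z : KD (gens c)} (hz : ∀ v, delD (gens c) v z = 0) :
    ∃ a b : ℤ, b ≠ 0 ∧ (z : Om V) * b = a := by
  classical
  obtain ⟨Γ, hΓ, hzΓ⟩ := exists_finset z
  set N : Set (V → KD (gens c)) := {y | ∀ v, delD (gens c) v (y v₀) = 0} with hN
  have hNc : Closed (gens c) N := by
    refine ⟨fun y w hy hw v => ?_, fun y hy v => ?_, fun y hy v => ?_, fun σ hσ y hy v => ?_⟩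
    · rw [(delD_isDer _ v).add, hy v, hw v, add_zero]
    · rw [(delD_isDer _ v).neg, hy v, neg_zero]
    · have h1 : delD (gens c) v (2 * y v₀) = 0 := hy v
      have h2 : delD (gens c) v (2 : KD (gens c)) = 0 := (delD_isDer (gens c) v).nat 2
      rw [(delD_isDer _ v).mul, h2, mul_zero, add_zero, RingHom.id_apply] at h1
      exact (mul_eq_zero.1 h1).resolve_left two_ne_zero
    · rw [delD_map hσ, hy v, map_zero]
  have key := comp (gens_indep hc) Γ hΓ N hNc
    {y | ∃ a b : ℤ, b ≠ 0 ∧ (y : Om V) * b = a} (by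
      rintro x y ⟨a, b, hb, h1⟩ ⟨a', b', hb', h2⟩
      refine ⟨a * b' + a' * b, b * b', mul_ne_zero hb hb', ?_⟩
      have : (((x + y : KD (gens c))) : Om V) = (x : Om V) + y := rfl
      rw [this]
      push_cast
      linear_combination (b' : Om V) * h1 + (b : Om V) * h2) v₀ ?_ (fun _ => z) hz (fun _ => hzΓ)
  · exact key
  intro U hU a ha
  have hUg : (U : Set (MvPolynomial V ℤ)) ⊆ gens c := fun q hq => hΓ (hU hq)
  by_cases ha0 : a v₀ = 0
  · refine ⟨0, 1, one_ne_zero, ?_⟩
    rw [ha0, map_zero, zero_mul]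
    simp
  have hsq : (algebraMap (K0 V) (KD (gens c)) (a v₀) * ∏ g ∈ U, rtE (gens c) g) ^ 2 =
      algebraMap (K0 V) (KD (gens c)) (a v₀ ^ 2 * algebraMap _ _ (∏ g ∈ U, g)) := by
    have hrsq : (∏ g ∈ U, rtE (gens c) g) ^ 2 = incD (gens c) (∏ g ∈ U, g) := by
      rw [← Finset.prod_pow, map_prod]
      exact Finset.prod_congr rfl fun g hg => rtE_sq (hUg hg)
    rw [mul_pow, hrsq, map_mul, map_pow]
    rfl
  have h1 : ∀ v, del v (algebraMap (K0 V) (Om V)
      (a v₀ ^ 2 * algebraMap _ _ (∏ g ∈ U, g))) = 0 := by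
    intro v
    have h2 : delD (gens c) v ((algebraMap (K0 V) (KD (gens c)) (a v₀) *
        ∏ g ∈ U, rtE (gens c) g) ^ 2) = 0 := by
      rw [(delD_isDer (gens c) v).pow]
      have h3 : delD (gens c) v (algebraMap (K0 V) (KD (gens c)) (a v₀) *
        ∏ g ∈ U, rtE (gens c) g) = 0 := ha v
      rw [h3, mul_zero]
    rw [hsq] at h2
    exact congrArg (fun y : KD (gens c) => (y : Om V)) h2
  by_cases hU0 : U = ∅
  · subst hU0
    simp only [Finset.prod_empty, mul_one] at ha ⊢
    have h4 : ∀ v, del v (algebraMap (K0 V) (Om V) (a v₀)) = 0 := fun v =>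
      congrArg (fun y : KD (gens c) => (y : Om V)) (ha v)
    exact const_K0 h4
  exfalso
  obtain ⟨m, n, hn, h2⟩ := const_K0 h1
  obtain ⟨p, q, hq, h3⟩ := exists_frac (a v₀)
  have hq' : q ≠ 0 := by
    rintro rfl
    simp at hq
  have hp' : p ≠ 0 := by
    rintro rfl
    rw [map_zero, zero_div, map_eq_zero] at h3
    exact ha0 h3
  refine odd_mult hc hUg hU0 hp' hq' hn (a := m) ?_
  apply inc_injective
  rw [map_mul, map_pow, h3, ← inc_apply] at h2
  rw [map_mul, map_mul, map_mul, map_pow, map_pow, map_intCast, map_intCast]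
  field_simp at h2
  linear_combination h2

end Pool.Agent.H.MP_7de982_lc
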