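import Mathlib

namespace Pool.Agent.H.MP_7de982_lc

universe u v

/-- `SP P K` is the set of the `a : K` such that `P(a, b) = 0` for some `b : K`. -/
def SP (P : MvPolynomial (Fin 2) ℚ) (K : Type u) [Field K] [CharZero K] : Set K :=
  {a | ∃ b : K, MvPolynomial.aeval ![a, b] P = 0}

/-- The field `K`, the polynomials `P`, `Q`, `R` and the map `α` are an existential coding of the
graph with vertex set `V` and edge relation `E`. -/
structure IsCoding {V : Type v} (E : V → V → Prop) (K : Type u) [Field K] [CharZero K]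
    (P : MvPolynomial (Fin 2) ℚ) (Q R : MvPolynomial (Fin 3) ℚ) (α : V → K) : Prop where
  /-- `α` is a bijection from `V` onto `SP P K`. -/
  bij : Set.BijOn α Set.univ (SP P K)
  /-- `(v, w)` is an edge if and only if `R(α v, α w, c) = 0` for some `c : K`. -/
  edge : ∀ v w, E v w ↔ ∃ c : K, MvPolynomial.aeval ![α v, α w, c] R = 0
  /-- `(v, w)` is not an edge if and only if `Q(α v, α w, c) = 0` for some `c : K`. -/
  nonedge : ∀ v w, ¬ E v w ↔ ∃ c : K, MvPolynomial.aeval ![α v, α w, c] Q = 0

end Pool.Agent.H.MP_7de982_lc
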