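import Mathlib

namespace Pool.Agent.H.MP_7de982_lc

theorem no_sq {n : ℕ} (hn : ¬ IsSquare n) {x y : ℤ} (hy : y ≠ 0) (h : x ^ 2 = n * y ^ 2) :
    False := by
  have h1 : Irrational (Real.sqrt n) := irrational_sqrt_natCast_iff.2 hn
  apply h1
  have hy' : (y : ℝ) ≠ 0 := by exact_mod_cast hy
  have h2 : (|(x:ℝ) / y|) = Real.sqrt n := by
    rw [← Real.sqrt_sq_eq_abs]
    congr 1
    rw [div_pow, div_eq_iff (pow_ne_zero 2 hy')]
    exact_mod_cast h
  refine ⟨|(x:ℚ) / y|, ?_⟩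
  push_cast
  exact h2

theorem nsq {n : ℕ} (hn : n < 36) (h : ∀ r < 6, r * r ≠ n) : ¬ IsSquare n := by
  rintro ⟨r, hr⟩
  have h1 : r < 6 := by nlinarith
  exact h r h1 hr.symm

theorem no2 {x y : ℤ} (hy : y ≠ 0) (h : x ^ 2 = 2 * y ^ 2) : False :=
  no_sq (n := 2) (nsq (by norm_num) (by decide)) hy (by exact_mod_cast h)

theorem no3 {x y : ℤ} (hy : y ≠ 0) (h : x ^ 2 = 3 * y ^ 2) : False :=
  no_sq (n := 3) (nsq (by norm_num) (by decide)) hy (by exact_mod_cast h)

theorem no7 {x y : ℤ} (hy : y ≠ 0) (h : x ^ 2 = 7 * y ^ 2) : False :=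
  no_sq (n := 7) (nsq (by norm_num) (by decide)) hy (by exact_mod_cast h)

theorem no6 {x y : ℤ} (hy : y ≠ 0) (h : x ^ 2 = 6 * y ^ 2) : False :=
  no_sq (n := 6) (nsq (by norm_num) (by decide)) hy (by exact_mod_cast h)

theorem no14 {x y : ℤ} (hy : y ≠ 0) (h : x ^ 2 = 14 * y ^ 2) : False :=
  no_sq (n := 14) (nsq (by norm_num) (by decide)) hy (by exact_mod_cast h)

theorem no21 {x y : ℤ} (hy : y ≠ 0) (h : x ^ 2 = 21 * y ^ 2) : False :=
  no_sq (n := 21) (nsq (by norm_num) (by decide)) hy (by exact_mod_cast h)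

/-- Comparison of a real quadratic polynomial with `x^2 + s x + t` at a nonreal root. -/
theorem coef_eq {s t y : ℝ} (hy : y ≠ 0) (ω : ℂ) (hω : ω = ⟨-s / 2, y⟩)
    (h0 : ω ^ 2 + s * ω + t = 0) {p q r : ℝ} (h : (p : ℂ) * ω ^ 2 + q * ω + r = 0) :
    q = p * s ∧ r = p * t := by
  have h1 : ((q - p * s : ℝ) : ℂ) * ω + ((r - p * t : ℝ) : ℂ) = 0 := by
    push_cast
    linear_combination h - (p : ℂ) * h0
  have h2 := congrArg Complex.im h1
  rw [hω] at h2
  simp only [Complex.add_im, Complex.mul_im, Complex.ofReal_re, Complex.ofReal_im, zero_mul,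
    add_zero, Complex.zero_im] at h2
  have h3 : q - p * s = 0 := (mul_eq_zero.1 h2).resolve_right hy
  have h4 := congrArg Complex.re h1
  rw [h3] at h4
  simp only [Complex.ofReal_zero, zero_mul, zero_add, Complex.ofReal_re, Complex.zero_re] at h4
  exact ⟨by linarith, by linarith⟩

theorem mob {A B C D ρ a b : ℤ} (ha : a = 1 ∨ a = 2) (hb : b = 1 ∨ b = 2)
    (hΔ : A * D - B * C ≠ 0)
    (h : ∀ ω : ℂ, (((C + D * ω) ^ 2 + (A + B * ω) ^ 2) * ((C + D * ω) ^ 2 + 2 * (A + B * ω) ^ 2)) *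
      ((C + D * ω) ^ 2 + (C + D * ω) * (A + B * ω) + a * (A + B * ω) ^ 2) =
      ρ * ((ω ^ 2 + 1) * (ω ^ 2 + 2) * (ω ^ 2 + ω + b))) :
    a = b ∧ B = 0 ∧ C = 0 ∧ D = A := by
  -- vanishing of a factor at a root
  have key : ∀ (s t : ℤ) (y : ℝ), y ≠ 0 → (⟨-(s:ℝ) / 2, y⟩ : ℂ) ^ 2 + s * ⟨-(s:ℝ) / 2, y⟩ + t = 0 →
      (ρ * (((⟨-(s:ℝ) / 2, y⟩ : ℂ) ^ 2 + 1) * ((⟨-(s:ℝ) / 2, y⟩ : ℂ) ^ 2 + 2) *
        ((⟨-(s:ℝ) / 2, y⟩ : ℂ) ^ 2 + ⟨-(s:ℝ) / 2, y⟩ + b)) = 0) →
      (2 * (C * D + A * B) = (D ^ 2 + B ^ 2) * s ∧ C ^ 2 + A ^ 2 = (D ^ 2 + B ^ 2) * t) ∨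
      (2 * (C * D + 2 * A * B) = (D ^ 2 + 2 * B ^ 2) * s ∧
        C ^ 2 + 2 * A ^ 2 = (D ^ 2 + 2 * B ^ 2) * t) ∨
      (2 * C * D + C * B + D * A + 2 * a * A * B = (D ^ 2 + D * B + a * B ^ 2) * s ∧
        C ^ 2 + C * A + a * A ^ 2 = (D ^ 2 + D * B + a * B ^ 2) * t) := by
    intro s t y hy h0 h1
    rw [← h] at h1
    rcases mul_eq_zero.1 h1 with h1 | h1
    · rcases mul_eq_zero.1 h1 with h1 | h1
      · left
        have := coef_eq (s := s) (t := t) hy _ rfl (by exact_mod_cast h0)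
          (p := D ^ 2 + B ^ 2) (q := 2 * (C * D + A * B)) (r := C ^ 2 + A ^ 2)
          (by push_cast; linear_combination h1)
        exact ⟨by exact_mod_cast this.1, by exact_mod_cast this.2⟩
      · right; left
        have := coef_eq (s := s) (t := t) hy _ rfl (by exact_mod_cast h0)
          (p := D ^ 2 + 2 * B ^ 2) (q := 2 * (C * D + 2 * A * B)) (r := C ^ 2 + 2 * A ^ 2)
          (by push_cast; linear_combination h1)
        exact ⟨by exact_mod_cast this.1, by exact_mod_cast this.2⟩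
    · right; right
      have := coef_eq (s := s) (t := t) hy _ rfl (by exact_mod_cast h0)
        (p := D ^ 2 + D * B + a * B ^ 2) (q := 2 * C * D + C * B + D * A + 2 * a * A * B)
        (r := C ^ 2 + C * A + a * A ^ 2)
        (by push_cast; linear_combination h1)
      exact ⟨by exact_mod_cast this.1, by exact_mod_cast this.2⟩
  set Δ := A * D - B * C with hΔd
  -- the root `i`
  have k1 := key 0 1 1 one_ne_zero (by
    apply Complex.ext <;> simp [sq]) (by
    have : (⟨-((0:ℤ):ℝ) / 2, 1⟩ : ℂ) ^ 2 + 1 = 0 := by apply Complex.ext <;> simp [sq]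
    rw [this]; ring)
  have k2 := key 0 2 (Real.sqrt 2) (by positivity) (by
    apply Complex.ext <;> simp [sq]) (by
    have : (⟨-((0:ℤ):ℝ) / 2, Real.sqrt 2⟩ : ℂ) ^ 2 + 2 = 0 := by apply Complex.ext <;> simp [sq]
    rw [this]; ring)
  have k3 := key 1 b (Real.sqrt (4 * b - 1) / 2) (by
    have : (0:ℝ) < 4 * b - 1 := by
      rcases hb with rfl | rfl <;> norm_num
    positivity) (by
    have h1 : (0:ℝ) ≤ 4 * b - 1 := by
      rcases hb with rfl | rfl <;> norm_num
    apply Complex.ext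
    · simp only [sq, Complex.add_re, Complex.mul_re, Complex.intCast_re, Complex.intCast_im,
        Complex.zero_re]
      have := Real.mul_self_sqrt h1
      push_cast
      linarith
    · simp only [sq, Complex.add_im, Complex.mul_im, Complex.intCast_re, Complex.intCast_im,
        Complex.zero_im]
      push_cast
      ring) (by
    have h1 : (0:ℝ) ≤ 4 * b - 1 := by
      rcases hb with rfl | rfl <;> norm_num
    have : (⟨-((1:ℤ):ℝ) / 2, Real.sqrt (4 * b - 1) / 2⟩ : ℂ) ^ 2 +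
        ⟨-((1:ℤ):ℝ) / 2, Real.sqrt (4 * b - 1) / 2⟩ + b = 0 := by
      apply Complex.ext
      · simp only [sq, Complex.add_re, Complex.mul_re, Complex.intCast_re,
          Complex.zero_re]
        have := Real.mul_self_sqrt h1
        push_cast
        linarith
      · simp only [sq, Complex.add_im, Complex.mul_im, Complex.intCast_im,
          Complex.zero_im]
        push_cast
        ring
    rw [this]; ring)
  -- discriminant identities
  have h2Δ : 2 * Δ ≠ 0 := mul_ne_zero two_ne_zero hΔ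
  have d1 : (2 * (C * D + A * B)) ^ 2 - 4 * (D ^ 2 + B ^ 2) * (C ^ 2 + A ^ 2) = -4 * Δ ^ 2 := by
    rw [hΔd]; ring
  have d2 : (2 * (C * D + 2 * A * B)) ^ 2 - 4 * (D ^ 2 + 2 * B ^ 2) * (C ^ 2 + 2 * A ^ 2) =
      -8 * Δ ^ 2 := by
    rw [hΔd]; ring
  have d3 : (2 * C * D + C * B + D * A + 2 * a * A * B) ^ 2 - 4 * (D ^ 2 + D * B + a * B ^ 2) *
      (C ^ 2 + C * A + a * A ^ 2) = (1 - 4 * a) * Δ ^ 2 := by
    rw [hΔd]; ring
  set p1 := D ^ 2 + B ^ 2 with hp1
  set p2 := D ^ 2 + 2 * B ^ 2 with hp2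
  set p3 := D ^ 2 + D * B + a * B ^ 2 with hp3
  have e1 : 2 * (C * D + A * B) = 0 ∧ C ^ 2 + A ^ 2 = p1 := by
    rcases k1 with ⟨h1, h2⟩ | ⟨h1, h2⟩ | ⟨h1, h2⟩
    · exact ⟨by rw [h1]; ring, by rw [h2]; ring⟩
    · exfalso
      rw [h1, h2] at d2
      exact no2 hΔ (x := p2) (by linarith)
    · exfalso
      rw [h1, h2] at d3
      rcases ha with rfl | rfl
      · exact no3 hΔ (x := 2 * p3) (by linear_combination -d3)
      · exact no7 hΔ (x := 2 * p3) (by linear_combination -d3)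
  have e2 : 2 * (C * D + 2 * A * B) = 0 ∧ C ^ 2 + 2 * A ^ 2 = p2 * 2 := by
    rcases k2 with ⟨h1, h2⟩ | ⟨h1, h2⟩ | ⟨h1, h2⟩
    · exfalso
      rw [h1, h2] at d1
      exact no2 hΔ (x := 2 * p1) (by linarith)
    · exact ⟨by rw [h1]; ring, by rw [h2]⟩
    · exfalso
      rw [h1, h2] at d3
      rcases ha with rfl | rfl
      · exact no6 hΔ (x := 4 * p3) (by linear_combination -2 * d3)
      · exact no14 hΔ (x := 4 * p3) (by linear_combination -2 * d3)
  have e3 : a = b ∧ 2 * C * D + C * B + D * A + 2 * a * A * B = p3 := by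
    rcases k3 with ⟨h1, h2⟩ | ⟨h1, h2⟩ | ⟨h1, h2⟩
    · exfalso
      rw [h1, h2] at d1
      rcases hb with rfl | rfl
      · exact no3 h2Δ (x := 3 * p1) (by linear_combination -3 * d1)
      · exact no7 h2Δ (x := 7 * p1) (by linear_combination -7 * d1)
    · exfalso
      rw [h1, h2] at d2
      rcases hb with rfl | rfl
      · exact no6 h2Δ (x := 3 * p2) (by linear_combination -3 * d2)
      · exact no14 h2Δ (x := 7 * p2) (by linear_combination -7 * d2)
    · refine ⟨?_, by rw [h1]; ring⟩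
      rw [h1, h2] at d3
      rcases ha with rfl | rfl <;> rcases hb with rfl | rfl
      · rfl
      · exfalso
        exact no21 hΔ (x := 7 * p3) (by linear_combination -7 * d3)
      · exfalso
        exact no21 hΔ (x := 3 * p3) (by linear_combination -3 * d3)
      · rfl
  refine ⟨e3.1, ?_⟩
  obtain ⟨e11, e12⟩ := e1
  obtain ⟨e21, e22⟩ := e2
  have f1 : A * B = 0 := by linarith
  have f2 : C * D = 0 := by linarith
  rcases mul_eq_zero.1 f1 with f3 | f3
  · exfalso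
    rw [f3] at hΔd
    have f4 : C ≠ 0 := by
      rintro rfl
      apply hΔ
      rw [hΔd]; ring
    have f5 := (mul_eq_zero.1 f2).resolve_left f4
    rw [hp1, f3, f5] at e12
    rw [hp2, f3, f5] at e22
    apply f4
    nlinarith
  · have f4 : D ≠ 0 := by
      rintro rfl
      apply hΔ
      rw [hΔd, f3]; ring
    have f5 := (mul_eq_zero.1 f2).resolve_right f4
    refine ⟨f3, f5, ?_⟩
    have f6 := e3.2
    rw [hp3, f3, f5] at f6
    have f7 : D * (A - D) = 0 := by linear_combination f6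
    have := (mul_eq_zero.1 f7).resolve_left f4
    omega

end Pool.Agent.H.MP_7de982_lc
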