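import Mathlib
import Pool.Agent.H.MP_7de982_lc.Consts
import Pool.Agent.H.MP_7de982_lc.Mob

namespace Pool.Agent.H.MP_7de982_lc

open IntermediateField

universe u
variable {V : Type u}

theorem const_KD' {c : V → V → ℤ} (hc : ∀ v w, c v w = 1 ∨ c v w = 2)
    {z : KD (gens c)} (hz : ∀ v, delD (gens c) v z = 0) :
    ∃ a b : ℤ, b ≠ 0 ∧ (z : Om V) * b = a := by
  by_cases hV : Nonempty V
  · exact const_KD hc hV.some hz
  · have h1 : gens c = ∅ := by
      ext q
      simp only [Set.mem_empty_iff_false, iff_false]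
      rintro ⟨v, w, -⟩
      exact hV ⟨v⟩
    have h3 : KD (gens c) = (⊥ : IntermediateField (K0 V) (Om V)) := by
      rw [h1]
      simp
    have h4 : ∀ y : Om V, y ∈ KD (gens c) → y ∈ (⊥ : IntermediateField (K0 V) (Om V)) := by
      rw [h3]
      exact fun _ h => h
    have h2 := h4 _ z.2
    rw [IntermediateField.mem_bot] at h2
    obtain ⟨x, hx⟩ := h2
    rw [← hx]
    apply const_K0
    intro v
    exact absurd ⟨v⟩ hV

/-- Elements whose product with the square root of the `i`th sextic is affine. -/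
def Aff (c : V → V → ℤ) (i : V) : Set (KD (gens c)) :=
  {y | (∀ k, k ≠ i → del k ((y : Om V) * rt (gen c i i)) = 0) ∧
    del i (del i ((y : Om V) * rt (gen c i i))) = 0}

theorem Aff.add {c : V → V → ℤ} {i : V} {x y : KD (gens c)} (hx : x ∈ Aff c i)
    (hy : y ∈ Aff c i) : x + y ∈ Aff c i := by
  have h : (((x + y : KD (gens c))) : Om V) = (x : Om V) + y := rfl
  refine ⟨fun k hk => ?_, ?_⟩
  · rw [h, add_mul, (del_isDer k).add, hx.1 k hk, hy.1 k hk, add_zero]
  · rw [h, add_mul, (del_isDer i).add, (del_isDer i).add, hx.2, hy.2, add_zero]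

theorem reg_aff {c : V → V → ℤ} (hc : ∀ v w, c v w = 1 ∨ c v w = 2) {z : V → KD (gens c)}
    (hz : Reg (gens c) z) {Γ : Finset (MvPolynomial V ℤ)}
    (hΓ : (Γ : Set (MvPolynomial V ℤ)) ⊆ gens c)
    (hzΓ : ∀ v, (z v : Om V) ∈ KD (Γ : Set (MvPolynomial V ℤ))) (i : V) : z i ∈ Aff c i := by
  refine comp (gens_indep hc) Γ hΓ {z | Reg (gens c) z} (reg_closed _) (Aff c i)
    (fun x y hx hy => Aff.add hx hy) i ?_ z hz hzΓ
  intro U hU a ha
  by_cases hi : a i = 0
  · rw [hi, map_zero, zero_mul]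
    refine ⟨fun k _ => ?_, ?_⟩
    · simp [(del_isDer k).zero]
    · simp [(del_isDer i).zero]
  have hUg : (U : Set (MvPolynomial V ℤ)) ⊆ gens c := fun q hq => hΓ (hU hq)
  obtain ⟨h1, h2, h3⟩ := core hc hUg ha hi
  have hg : gen c i i ∈ gens c := ⟨i, i, rfl⟩
  have h4 : ((algebraMap (K0 V) (KD (gens c)) (a i) * ∏ g ∈ U, rtE (gens c) g : KD (gens c)) :
      Om V) * rt (gen c i i) = algebraMap (K0 V) (Om V) (a i) * inc (∏ g ∈ U, g) := by
    rw [h1, Finset.prod_singleton, Finset.prod_singleton, rtE_eq hg, ← rt_sq]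
    have : ((algebraMap (K0 V) (KD (gens c)) (a i) * rtD hg : KD (gens c)) : Om V) =
      algebraMap (K0 V) (Om V) (a i) * rt (gen c i i) := rfl
    rw [this]
    ring
  refine ⟨fun k hk => ?_, ?_⟩
  · rw [h4]; exact h2 k hk
  · rw [h4]; exact h3

theorem lin_form {c : V → V → ℤ} (hc : ∀ v w, c v w = 1 ∨ c v w = 2) {i : V}
    {W : KD (gens c)} (h1 : ∀ k, k ≠ i → delD (gens c) k W = 0)
    (h2 : delD (gens c) i (delD (gens c) i W) = 0) :
    ∃ A B n : ℤ, n ≠ 0 ∧ (W : Om V) * n = A + B * xx i := by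
  classical
  set x : KD (gens c) := incD (gens c) (MvPolynomial.X i) with hx
  have h3 : ∀ v, delD (gens c) v (delD (gens c) i W) = 0 := by
    intro v
    by_cases hv : v = i
    · rw [hv]; exact h2
    · rw [delD_comm, h1 v hv, (delD_isDer _ i).zero]
  have h4 : ∀ v, delD (gens c) v (W - delD (gens c) i W * x) = 0 := by
    intro v
    rw [(delD_isDer _ v).sub, (delD_isDer _ v).mul, h3 v, mul_zero, add_zero]
    by_cases hv : v = i
    · rw [hv, hx, delD_X_self]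
      simp
    · rw [h1 v hv, hx, delD_X_ne (Ne.symm hv)]
      simp
  obtain ⟨a, b, hb, h5⟩ := const_KD' hc h3
  obtain ⟨a', b', hb', h6⟩ := const_KD' hc h4
  refine ⟨a' * b, a * b', b * b', mul_ne_zero hb hb', ?_⟩
  have h7 : ((W - delD (gens c) i W * x : KD (gens c)) : Om V) =
    (W : Om V) - ((delD (gens c) i W : KD (gens c)) : Om V) * xx i := rfl
  rw [h7] at h6
  push_cast
  linear_combination (b : Om V) * h6 + (b' : Om V) * xx i * h5

theorem no_const_point {a : ℤ} (ha : a = 1 ∨ a = 2) {X T : Om V} {m n p q : ℤ} (hn : n ≠ 0)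
    (hq : q ≠ 0) (hX : X * n = m) (hT : T * q = p) (h : T ^ 2 = ev (gp a) X) : False := by
  have hn' : (n : Om V) ≠ 0 := Int.cast_ne_zero.2 hn
  have hq' : (q : Om V) ≠ 0 := Int.cast_ne_zero.2 hq
  have h1 : X = ((m / n : ℚ) : Om V) := by
    push_cast
    rw [eq_div_iff hn', hX]
  have h2 : T = ((p / q : ℚ) : Om V) := by
    push_cast
    rw [eq_div_iff hq', hT]
  rw [ev_gp, h1, h2] at h
  have h3 : ((p / q : ℚ)) ^ 2 = -(((m / n : ℚ) ^ 2 + 1) * ((m / n : ℚ) ^ 2 + 2) *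
      ((m / n : ℚ) ^ 2 + (m / n : ℚ) + a)) := by
    exact_mod_cast h
  generalize (m / n : ℚ) = x at h3
  generalize (p / q : ℚ) = y at h3
  have h4 : 0 < x ^ 2 + x + a := by
    rcases ha with rfl | rfl
    · push_cast
      nlinarith [sq_nonneg (x + 1 / 2)]
    · push_cast
      nlinarith [sq_nonneg (x + 1 / 2)]
  have h5 : 0 < (x ^ 2 + 1) * (x ^ 2 + 2) * (x ^ 2 + x + a) := by positivity
  nlinarith [sq_nonneg y]

theorem points {c : V → V → ℤ} (hc : ∀ v w, c v w = 1 ∨ c v w = 2) {a : ℤ}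
    (ha : a = 1 ∨ a = 2) {X T : KD (gens c)} (h : T ^ 2 = ev (gp a) X) :
    ∃ v, c v v = a ∧ (X : Om V) = xx v := by
  classical
  have hsep : ∀ c : Om V, ev (gp a) c = 0 → ev (Polynomial.derivative (gp a)) c ≠ 0 :=
    fun c => gp_sep ha c
  have hcoe : (T : Om V) ^ 2 = ev (gp a) (X : Om V) := by
    have := congrArg (algebraMap (KD (gens c)) (Om V)) h
    rw [map_pow, map_ev] at this
    exact this
  by_cases hX : ∀ v, delD (gens c) v X = 0
  · exfalso
    obtain ⟨m, n, hn, h1⟩ := const_KD' hc hX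
    have hT : ∀ v, delD (gens c) v T = 0 := by
      intro v
      by_cases hT0 : T = 0
      · rw [hT0, (delD_isDer _ v).zero]
      · have h2 := congrArg (delD (gens c) v) h
        rw [(delD_isDer _ v).ev, hX v, mul_zero, (delD_isDer _ v).pow] at h2
        simp only [RingHom.id_apply] at h2
        rcases mul_eq_zero.1 h2 with h3 | h3
        · exfalso
          rcases mul_eq_zero.1 h3 with h4 | h4
          · norm_num at h4
          · exact hT0 ((pow_eq_zero_iff (by norm_num)).1 h4)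
        · exact h3
    obtain ⟨p, q, hq, h2⟩ := const_KD' hc hT
    exact no_const_point ha hn hq h1 h2 hcoe
  push Not at hX
  obtain ⟨i, hi⟩ := hX
  have hT0 : T ≠ 0 := by
    intro hT0
    rw [hT0] at hcoe
    have h1 : ev (gp a) (X : Om V) = 0 := by
      rw [← hcoe]
      have : ((0 : KD (gens c)) : Om V) = 0 := rfl
      rw [this]
      norm_num
    have h2 := congrArg (del i) h1
    rw [(del_isDer i).ev, (del_isDer i).zero] at h2
    have h3 := (mul_eq_zero.1 h2).resolve_left (hsep _ h1)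
    exact hi (Subtype.ext h3)
  obtain ⟨hreg1, hreg2⟩ := reg_form hT0 (natDegree_gp a) hsep h
  obtain ⟨Γ₁, hΓ₁, hXΓ⟩ := exists_finset X
  obtain ⟨Γ₂, hΓ₂, hTΓ⟩ := exists_finset T
  have hΓ : ((Γ₁ ∪ Γ₂ : Finset (MvPolynomial V ℤ)) : Set (MvPolynomial V ℤ)) ⊆ gens c := by
    rw [Finset.coe_union]
    exact Set.union_subset hΓ₁ hΓ₂
  have hX' : (X : Om V) ∈ KD ((Γ₁ ∪ Γ₂ : Finset (MvPolynomial V ℤ)) : Set (MvPolynomial V ℤ)) :=
    KD_mono (by simp) hXΓ
  have hT' : (T : Om V) ∈ KD ((Γ₁ ∪ Γ₂ : Finset (MvPolynomial V ℤ)) : Set (MvPolynomial V ℤ)) :=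
    KD_mono (by simp) hTΓ
  have hdX : ∀ v, del v (X : Om V) ∈
      KD ((Γ₁ ∪ Γ₂ : Finset (MvPolynomial V ℤ)) : Set (MvPolynomial V ℤ)) :=
    fun v => del_mem v ⟨_, hX'⟩
  have haff1 := reg_aff hc hreg1 hΓ (fun v => div_mem (hdX v) hT') i
  have haff2 := reg_aff hc hreg2 hΓ (fun v => div_mem (mul_mem hX' (hdX v)) hT') i
  have hg : gen c i i ∈ gens c := ⟨i, i, rfl⟩
  set W : KD (gens c) := delD (gens c) i X / T * rtD hg with hW
  set W' : KD (gens c) := X * delD (gens c) i X / T * rtD hg with hW'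
  obtain ⟨A, B, n, hn, h1⟩ := lin_form hc (i := i) (W := W)
    (fun k hk => Subtype.ext (haff1.1 k hk)) (Subtype.ext haff1.2)
  obtain ⟨C, D, n', hn', h2⟩ := lin_form hc (i := i) (W := W')
    (fun k hk => Subtype.ext (haff2.1 k hk)) (Subtype.ext haff2.2)
  -- pass to the algebraic closure
  set x : Om V := xx i with hx
  set r : Om V := rt (gen c i i) with hr
  have hr2 : r ^ 2 = -((x ^ 2 + 1) * (x ^ 2 + 2) * (x ^ 2 + x + (c i i : ℤ))) := by
    rw [hr, rt_sq, gen_self, map_ev, ev_gp]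
    rfl
  have hr0 : r ≠ 0 := by
    intro h3
    have h4 : inc (gen c i i) = 0 := by rw [← rt_sq, ← hr, h3]; norm_num
    exact inc_ne_zero (gen_ne_zero hc i i) h4
  have hT0' : (T : Om V) ≠ 0 := fun h3 => hT0 (Subtype.ext h3)
  have hdX0 : del i (X : Om V) ≠ 0 := fun h3 => hi (Subtype.ext h3)
  have hWc : (W : Om V) = del i (X : Om V) / T * r := rfl
  have hWc' : (W' : Om V) = X * del i (X : Om V) / T * r := rfl
  rw [hWc] at h1
  rw [hWc'] at h2
  rw [ev_gp] at hcoe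
  have hd := del_isDer i
  have hdx : del i x = 1 := del_self i
  generalize (X : Om V) = X at *
  generalize (T : Om V) = T at *
  have hN : n * n' ≠ 0 := mul_ne_zero hn hn'
  obtain ⟨N, hNd⟩ : ∃ N, N = n * n' := ⟨_, rfl⟩
  obtain ⟨A', hA⟩ : ∃ A', A' = A * n' := ⟨_, rfl⟩
  obtain ⟨B', hB⟩ : ∃ B', B' = B * n' := ⟨_, rfl⟩
  obtain ⟨C', hC⟩ : ∃ C', C' = C * n := ⟨_, rfl⟩
  obtain ⟨D', hD⟩ : ∃ D', D' = D * n := ⟨_, rfl⟩
  obtain ⟨H, hH⟩ : ∃ H : Om V, H = A' + B' * x := ⟨_, rfl⟩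
  have e1 : H * T = N * del i X * r := by
    rw [hH, hA, hB, hNd]
    field_simp at h1
    push_cast
    linear_combination -(n' : Om V) * h1
  have e2 : X * H = C' + D' * x := by
    have e3 : X * H * T = (C' + D' * x) * T := by
      rw [mul_assoc, e1, hC, hD, hNd]
      field_simp at h2
      push_cast
      linear_combination (n : Om V) * h2
    exact mul_right_cancel₀ hT0' e3
  have hN' : (N : Om V) ≠ 0 := by
    rw [hNd]
    exact Int.cast_ne_zero.2 hN
  have hH0 : H ≠ 0 := by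
    intro h3
    rw [h3, zero_mul] at e1
    exact mul_ne_zero (mul_ne_zero hN' hdX0) hr0 e1.symm
  have e4 : del i H = B' := by
    rw [hH, hd.add, hd.mul, hd.int, hd.int, hdx]
    simp
  have e5 : X * B' + H * del i X = D' := by
    have := congrArg (del i) e2
    rw [hd.mul, hd.add, hd.mul, hd.int, hd.int, hdx, e4] at this
    simpa using this
  have e6 : H ^ 2 * del i X = A' * D' - B' * C' := by
    have e7 : (X * B' + H * del i X) * H = D' * H := by rw [e5]
    linear_combination e7 - (B' : Om V) * e2 + (D' : Om V) * hH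
  have hΔ : A' * D' - B' * C' ≠ 0 := by
    intro h3
    have h4 : ((A' * D' - B' * C' : ℤ) : Om V) = 0 := by rw [h3]; simp
    push_cast at h4
    rw [← e6] at h4
    exact mul_ne_zero (pow_ne_zero 2 hH0) hdX0 h4
  have e8 : H ^ 3 * T = N * (A' * D' - B' * C') * r := by
    linear_combination H ^ 2 * e1 + N * r * e6
  have e9 : H ^ 6 * T ^ 2 = N ^ 2 * (A' * D' - B' * C') ^ 2 * r ^ 2 := by
    have : (H ^ 3 * T) ^ 2 = (N * (A' * D' - B' * C') * r) ^ 2 := by rw [e8]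
    linear_combination this
  obtain ⟨H', hH'⟩ : ∃ H' : Om V, H' = C' + D' * x := ⟨_, rfl⟩
  rw [← hH'] at e2
  have e10 : (H' ^ 2 + H ^ 2) * (H' ^ 2 + 2 * H ^ 2) * (H' ^ 2 + H' * H + a * H ^ 2) =
      N ^ 2 * (A' * D' - B' * C') ^ 2 * ((x ^ 2 + 1) * (x ^ 2 + 2) * (x ^ 2 + x + (c i i : ℤ))) := by
    rw [hcoe, hr2] at e9
    rw [← e2]
    linear_combination -e9
  obtain ⟨ρ, hρ⟩ : ∃ ρ : ℤ, ρ = N ^ 2 * (A' * D' - B' * C') ^ 2 := ⟨_, rfl⟩
  obtain ⟨Y, hY⟩ : ∃ Y : MvPolynomial V ℤ, Y = MvPolynomial.X i := ⟨_, rfl⟩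
  have e11 : ((Y ^ 2 + 1) * (Y ^ 2 + 2) * (Y ^ 2 + Y + ((c i i : ℤ) : MvPolynomial V ℤ))) *
      (ρ : MvPolynomial V ℤ) =
    (((C' : MvPolynomial V ℤ) + (D' : MvPolynomial V ℤ) * Y) ^ 2 +
      ((A' : MvPolynomial V ℤ) + (B' : MvPolynomial V ℤ) * Y) ^ 2) *
    (((C' : MvPolynomial V ℤ) + (D' : MvPolynomial V ℤ) * Y) ^ 2 +
      2 * ((A' : MvPolynomial V ℤ) + (B' : MvPolynomial V ℤ) * Y) ^ 2) *
    (((C' : MvPolynomial V ℤ) + (D' : MvPolynomial V ℤ) * Y) ^ 2 +
      ((C' : MvPolynomial V ℤ) + (D' : MvPolynomial V ℤ) * Y) *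
        ((A' : MvPolynomial V ℤ) + (B' : MvPolynomial V ℤ) * Y) +
      (a : MvPolynomial V ℤ) * ((A' : MvPolynomial V ℤ) + (B' : MvPolynomial V ℤ) * Y) ^ 2) := by
    apply inc_injective
    have hxi : inc Y = x := by rw [hY]; rfl
    simp only [map_mul, map_add, map_pow, map_intCast, map_one, map_ofNat, hxi]
    rw [← hH, ← hH', e10, hρ]
    push_cast
    ring
  obtain ⟨f1, f2, f3, f4⟩ := mob (A := A') (B := B') (C := C') (D := D') (ρ := ρ) (a := a)
    (b := c i i) ha (hc i i) hΔ (by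
    intro ω
    have := congrArg (MvPolynomial.eval₂Hom (Int.castRingHom ℂ) (fun _ => ω)) e11
    have hYω : MvPolynomial.eval₂Hom (Int.castRingHom ℂ) (fun _ => ω) Y = ω := by
      rw [hY, MvPolynomial.eval₂Hom_X']
    simp only [map_mul, map_add, map_pow, map_intCast, map_one, map_ofNat, hYω] at this
    rw [← this]
    ring)
  refine ⟨i, f1.symm, ?_⟩
  rw [hH', hH, f2, f3, f4] at e2
  have hA0 : (A' : Om V) ≠ 0 := by
    intro h3
    apply hH0
    rw [hH, f2, h3]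
    simp
  apply mul_right_cancel₀ hA0
  push_cast at e2
  linear_combination e2

end Pool.Agent.H.MP_7de982_lc
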