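import Mathlib
import Pool.Agent.H.MP_7de982_lc.Points

namespace Pool.Agent.H.MP_7de982_lc

open IntermediateField

universe u
variable {V : Type u}

theorem ne_zero_12 {m : ℤ} (hm : m = 1 ∨ m = 2) : (m : Om V) ≠ 0 := by
  rcases hm with rfl | rfl <;> norm_num

theorem del_const {a : Om V} {m n : ℤ} (hn : n ≠ 0) (h : a * n = m) (v : V) : del v a = 0 := by
  have hn' : (n : Om V) ≠ 0 := Int.cast_ne_zero.2 hn
  have h1 := congrArg (del v) h
  rw [(del_isDer v).mul, (del_isDer v).int, (del_isDer v).int, mul_zero, zero_add] at h1
  exact (mul_eq_zero.1 h1).resolve_left hn'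

theorem edge1 {c : V → V → ℤ} (hc : ∀ v w, c v w = 1 ∨ c v w = 2) {m n : ℤ}
    (hm : m = 1 ∨ m = 2) (hn : n = 1 ∨ n = 2) {v w : V} {z : KD (gens c)}
    (h : z ^ 2 = incD (gens c) (lin m n v w)) : v ≠ w ∧ m = c w v ∧ n = c v w := by
  by_contra hcon
  by_cases hvw : v = w
  · subst hvw
    have hmn : ((m + n : ℤ) : Om V) ≠ 0 := by
      rcases hm with rfl | rfl <;> rcases hn with rfl | rfl <;> norm_num
    have hmn' : m + n ≠ 0 := by
      rcases hm with rfl | rfl <;> rcases hn with rfl | rfl <;> norm_num
    have hk : kap v (lin m n v v) = Polynomial.C ((m + n : ℤ) : Om V) * Polynomial.X +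
        Polynomial.C (((m - 1) * (n - 1) : ℤ) : Om V) := by
      unfold lin
      rw [map_add, map_add, map_mul, map_mul, map_intCast, map_intCast, map_intCast, kap_self]
      simp only [map_add, map_intCast, Int.cast_add]
      ring
    set a : Om V := -(((m - 1) * (n - 1) : ℤ) : Om V) / ((m + n : ℤ) : Om V) with ha
    have ha' : a * ((m + n : ℤ) : Om V) = ((-((m - 1) * (n - 1)) : ℤ) : Om V) := by
      rw [ha, div_mul_cancel₀ _ hmn]
      push_cast
      ring
    refine not_sq (k := v) (a := a) (fun q hq h1 => ?_) ?_ ?_ z h
    · obtain ⟨u, rfl⟩ := gens_root_form hc hq h1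
      by_cases hu : u = v
      · subst hu
        rw [gen_self, eval_ev_self] at h1
        exact no_const_point (hc u u) hmn' one_ne_zero ha' (T := 0) (p := 0) (by simp)
          (by rw [h1]; norm_num)
      · exact (gen_root hc h1).2.1 hu (del_const hmn' ha' u)
    · rw [hk]
      simp only [Polynomial.eval_add, Polynomial.eval_mul, Polynomial.eval_C, Polynomial.eval_X]
      rw [mul_comm, ha']
      push_cast
      ring
    · rw [hk]
      simpa using hmn
  · have hm0 : (m : Om V) ≠ 0 := ne_zero_12 hm
    have hn0 : (n : Om V) ≠ 0 := ne_zero_12 hn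
    set a : Om V := -((n : Om V) * xx w + (((m - 1) * (n - 1) : ℤ) : Om V)) / m with ha
    have ha' : (m : Om V) * a + n * xx w + (((m - 1) * (n - 1) : ℤ) : Om V) = 0 := by
      rw [ha]
      field_simp
      ring
    have hda : (m : Om V) * del w a + n = 0 := by
      have h1 := congrArg (del w) ha'
      rw [(del_isDer w).add, (del_isDer w).add, (del_isDer w).mul, (del_isDer w).mul,
        (del_isDer w).int, (del_isDer w).int, (del_isDer w).int, (del_isDer w).zero,
        del_self] at h1
      simpa using h1
    refine not_sq (k := v) (a := a) (fun q hq h1 => ?_) ?_ ?_ z h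
    · obtain ⟨u, rfl⟩ := gens_root_form hc hq h1
      have hu : u = w := by
        by_contra hu
        rw [(gen_root hc h1).1 w (Ne.symm hu), mul_zero, zero_add] at hda
        exact hn0 hda
      subst hu
      rw [gen_ne c hvw, eval_lin_self (Ne.symm hvw)] at h1
      have h2 : ((c u v * n - m * c v u : ℤ) : Om V) * xx u +
          ((c u v * ((m - 1) * (n - 1)) - m * ((c u v - 1) * (c v u - 1)) : ℤ) : Om V) = 0 := by
        push_cast
        push_cast at h1 ha'
        linear_combination (c u v : Om V) * ha' - (m : Om V) * h1
      have h3 := congrArg (del u) h2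
      rw [(del_isDer u).add, (del_isDer u).mul, (del_isDer u).int, (del_isDer u).int,
        (del_isDer u).zero, del_self] at h3
      have h4 : ((c u v * n - m * c v u : ℤ) : Om V) = 0 := by simpa using h3
      rw [h4, zero_mul, zero_add] at h2
      have h5 := Int.cast_eq_zero.1 h4
      have h6 := Int.cast_eq_zero.1 h2
      apply hcon
      refine ⟨hvw, ?_⟩
      rcases hm with rfl | rfl <;> rcases hn with rfl | rfl <;> rcases hc u v with h7 | h7 <;>
        rcases hc v u with h8 | h8 <;> rw [h7, h8] at h5 h6 <;> rw [h7, h8] <;> omega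
    · rw [eval_lin_self (Ne.symm hvw)]
      exact ha'
    · rw [kap_lin_self (Ne.symm hvw)]
      simpa using hm0

theorem edge2 {c : V → V → ℤ} (hc : ∀ v w, c v w = 1 ∨ c v w = 2) {a : ℤ}
    (ha : a = 1 ∨ a = 2) {v w : V} {z : KD (gens c)}
    (h : z ^ 2 = incD (gens c) (ev (gp a) (MvPolynomial.X v) *
      (MvPolynomial.X v - MvPolynomial.X w + 1))) : v = w ∧ a = c v v := by
  by_contra hcon
  by_cases hvw : v = w
  · subst hvw
    have hac : a ≠ c v v := fun h1 => hcon ⟨rfl, h1⟩
    rw [sub_self, zero_add, mul_one] at h
    obtain ⟨s, hs⟩ := IsAlgClosed.exists_pow_nat_eq ((1 : Om V) - 4 * a) (n := 2) (by norm_num)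
    obtain ⟨α, hα⟩ : ∃ α : Om V, α = (-1 + s) / 2 := ⟨_, rfl⟩
    have h1 : α ^ 2 + α + a = 0 := by
      rw [hα]
      field_simp
      linear_combination hs
    have h2 : ev (gp a) α = 0 := by
      rw [ev_gp, h1]
      ring
    refine not_sq (k := v) (a := α) (fun q hq h3 => ?_) ?_ ?_ z h
    · obtain ⟨u, rfl⟩ := gens_root_form hc hq h3
      by_cases hu : u = v
      · subst hu
        rw [gen_self, eval_ev_self, ev_gp, neg_eq_zero, mul_eq_zero, mul_eq_zero] at h3
        have hac' : ((c u u - a : ℤ) : Om V) ≠ 0 := by
          rw [Int.cast_ne_zero]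
          omega
        rcases h3 with (h3 | h3) | h3
        · have h4 : α = 1 - a := by linear_combination h1 - h3
          rcases ha with rfl | rfl
          · have : (1 : Om V) = 0 := by
              rw [h4] at h3
              push_cast at h3
              linear_combination h3
            exact one_ne_zero this
          · have : (2 : Om V) = 0 := by
              rw [h4] at h3
              push_cast at h3
              linear_combination h3
            exact two_ne_zero this
        · have h4 : α = 2 - a := by linear_combination h1 - h3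
          rcases ha with rfl | rfl
          · have : (3 : Om V) = 0 := by
              rw [h4] at h3
              push_cast at h3
              linear_combination h3
            exact three_ne_zero this
          · have : (2 : Om V) = 0 := by
              rw [h4] at h3
              push_cast at h3
              linear_combination h3
            exact two_ne_zero this
        · apply hac'
          push_cast
          linear_combination h3 - h1
      · apply (gen_root hc h3).2.1 hu
        have h4 := (del_isDer u).ev (gp a) α
        rw [h2, (del_isDer u).zero] at h4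
        exact (mul_eq_zero.1 h4.symm).resolve_left (gp_sep ha α h2)
    · rw [eval_ev_self]
      exact h2
    · rw [eval_d_ev_self]
      exact gp_sep ha α h2
  · obtain ⟨α, hα⟩ : ∃ α : Om V, α = xx w - 1 := ⟨_, rfl⟩
    have hdα : del w α = 1 := by
      rw [hα, (del_isDer w).sub, (del_isDer w).one, del_self, sub_zero]
    have hgα : ev (gp a) α ≠ 0 := by
      intro h1
      have h4 := (del_isDer w).ev (gp a) α
      rw [h1, (del_isDer w).zero, hdα, mul_one] at h4
      exact gp_sep ha α h1 h4.symm
    have hk : kap v (ev (gp a) (MvPolynomial.X v) *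
      (MvPolynomial.X v - MvPolynomial.X w + 1)) =
        kap v (ev (gp a) (MvPolynomial.X v)) * (Polynomial.X - Polynomial.C α) := by
      rw [map_mul, map_add, map_sub, map_one, kap_self, kap_ne (Ne.symm hvw), hα, map_sub,
        map_one]
      ring
    refine not_sq (k := v) (a := α) (fun q hq h1 => ?_) ?_ ?_ z h
    · obtain ⟨u, rfl⟩ := gens_root_form hc hq h1
      have hu : u = w := by
        by_contra hu
        rw [(gen_root hc h1).1 w (Ne.symm hu)] at hdα
        exact zero_ne_one hdα
      subst hu
      rw [gen_ne c hvw, eval_lin_self (Ne.symm hvw)] at h1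
      have h3 := congrArg (del u) h1
      rw [(del_isDer u).add, (del_isDer u).add, (del_isDer u).mul, (del_isDer u).mul,
        (del_isDer u).int, (del_isDer u).int, (del_isDer u).int, (del_isDer u).zero,
        del_self, hdα] at h3
      have h4 : ((c u v + c v u : ℤ) : Om V) = 0 := by
        push_cast
        simpa using h3
      have h5 := Int.cast_eq_zero.1 h4
      rcases hc u v with h6 | h6 <;> rcases hc v u with h7 | h7 <;> omega
    · rw [hk]
      simp
    · rw [hk, Polynomial.derivative_mul]
      simp only [Polynomial.derivative_sub, Polynomial.derivative_X, Polynomial.derivative_C,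
        Polynomial.eval_add, Polynomial.eval_mul, Polynomial.eval_sub, Polynomial.eval_X,
        Polynomial.eval_C, sub_self, mul_zero, sub_zero, zero_add, mul_one]
      rw [eval_ev_self]
      exact hgα

end Pool.Agent.H.MP_7de982_lc
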