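import Mathlib
import Pool.Agent.H.MP_7de982_lc.Edge
import Pool.Agent.H.MP_7de982_lc.Defs

namespace Pool.Agent.H.MP_7de982_lc

open IntermediateField

universe u

/-- The linear forms in a general ring. -/
def linR {R : Type*} [CommRing R] (m n : ℤ) (x y : R) : R :=
  m * x + n * y + (((m - 1) * (n - 1) : ℤ) : R)

theorem map_linR {R S : Type*} [CommRing R] [CommRing S] (φ : R →+* S) (m n : ℤ) (x y : R) :
    φ (linR m n x y) = linR m n (φ x) (φ y) := by
  unfold linR
  rw [map_add, map_add, map_mul, map_mul, map_intCast, map_intCast, map_intCast]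

/-- The polynomial whose solvability detects the vertices. -/
noncomputable def Ppoly : MvPolynomial (Fin 2) ℚ :=
  (MvPolynomial.X 1 ^ 2 - ev (gp 1) (MvPolynomial.X 0)) *
    (MvPolynomial.X 1 ^ 2 - ev (gp 2) (MvPolynomial.X 0))

/-- The polynomials whose solvability detects the edges and the nonedges. -/
noncomputable def Rpoly (n : ℤ) : MvPolynomial (Fin 3) ℚ :=
  (MvPolynomial.X 2 ^ 2 - linR 1 n (MvPolynomial.X 0) (MvPolynomial.X 1)) *
    (MvPolynomial.X 2 ^ 2 - linR 2 n (MvPolynomial.X 0) (MvPolynomial.X 1)) *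
    (MvPolynomial.X 2 ^ 2 - ev (gp n) (MvPolynomial.X 0) *
      (MvPolynomial.X 0 - MvPolynomial.X 1 + 1))

theorem aeval_Ppoly {K : Type*} [Field K] [CharZero K] (a b : K) :
    MvPolynomial.aeval ![a, b] Ppoly = (b ^ 2 - ev (gp 1) a) * (b ^ 2 - ev (gp 2) a) := by
  have h : ∀ g : Polynomial ℤ, MvPolynomial.aeval (R := ℚ) ![a, b] (ev g (MvPolynomial.X 0)) =
      ev g a := by
    intro g
    have h1 : ∀ φ : MvPolynomial (Fin 2) ℚ →ₐ[ℚ] K, φ (ev g (MvPolynomial.X 0)) =
      ev g (φ (MvPolynomial.X 0)) := fun φ => map_ev (φ : MvPolynomial (Fin 2) ℚ →+* K) g _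
    rw [h1, MvPolynomial.aeval_X]
    rfl
  unfold Ppoly
  rw [map_mul, map_sub, map_sub, map_pow, h, h, MvPolynomial.aeval_X]
  rfl

theorem aeval_Rpoly {K : Type*} [Field K] [CharZero K] (n : ℤ) (a b c : K) :
    MvPolynomial.aeval ![a, b, c] (Rpoly n) = (c ^ 2 - linR 1 n a b) * (c ^ 2 - linR 2 n a b) *
      (c ^ 2 - ev (gp n) a * (a - b + 1)) := by
  have h : ∀ g : Polynomial ℤ, MvPolynomial.aeval (R := ℚ) ![a, b, c]
      (ev g (MvPolynomial.X 0)) = ev g a := by
    intro g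
    have h1 : ∀ φ : MvPolynomial (Fin 3) ℚ →ₐ[ℚ] K, φ (ev g (MvPolynomial.X 0)) =
      ev g (φ (MvPolynomial.X 0)) := fun φ => map_ev (φ : MvPolynomial (Fin 3) ℚ →+* K) g _
    rw [h1, MvPolynomial.aeval_X]
    rfl
  have h' : ∀ m : ℤ, MvPolynomial.aeval (R := ℚ) ![a, b, c]
      (linR m n (MvPolynomial.X 0) (MvPolynomial.X 1)) = linR m n a b := by
    intro m
    have h1 : ∀ φ : MvPolynomial (Fin 3) ℚ →ₐ[ℚ] K, φ (linR m n (MvPolynomial.X 0)
      (MvPolynomial.X 1)) = linR m n (φ (MvPolynomial.X 0)) (φ (MvPolynomial.X 1)) :=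
        fun φ => map_linR (φ : MvPolynomial (Fin 3) ℚ →+* K) m n _ _
    rw [h1, MvPolynomial.aeval_X, MvPolynomial.aeval_X]
    rfl
  unfold Rpoly
  rw [map_mul, map_mul, map_sub, map_sub, map_sub, map_mul, h, h', h', map_pow, map_add, map_sub,
    map_one, MvPolynomial.aeval_X, MvPolynomial.aeval_X, MvPolynomial.aeval_X]
  rfl

variable {V : Type u}

theorem gen_mem (c : V → V → ℤ) (v w : V) : gen c v w ∈ gens c := ⟨v, w, rfl⟩

/-- The vertices as elements of the field. -/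
noncomputable def vert (c : V → V → ℤ) (v : V) : KD (gens c) := incD (gens c) (MvPolynomial.X v)

theorem vert_injective (c : V → V → ℤ) : Function.Injective (vert c) :=
  (incD_injective (gens c)).comp (MvPolynomial.X_injective)

theorem exists_Rpoly {c : V → V → ℤ} (hc : ∀ v w, c v w = 1 ∨ c v w = 2) {n : ℤ}
    (hn : n = 1 ∨ n = 2) (v w : V) :
    (∃ z : KD (gens c), MvPolynomial.aeval ![vert c v, vert c w, z] (Rpoly n) = 0) ↔
      c v w = n := by
  have hlin : ∀ m : ℤ, linR m n (vert c v) (vert c w) = incD (gens c) (lin m n v w) := by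
    intro m
    unfold vert
    rw [← map_linR]
    rfl
  have hev : ev (gp n) (vert c v) * (vert c v - vert c w + 1) =
      incD (gens c) (ev (gp n) (MvPolynomial.X v) *
        (MvPolynomial.X v - MvPolynomial.X w + 1)) := by
    rw [map_mul, map_ev, map_add, map_sub, map_one]
    rfl
  constructor
  · rintro ⟨z, hz⟩
    rw [aeval_Rpoly, hlin, hlin, hev, mul_eq_zero, mul_eq_zero, sub_eq_zero, sub_eq_zero,
      sub_eq_zero] at hz
    rcases hz with (h | h) | h
    · exact (edge1 hc (Or.inl rfl) hn h).2.2.symm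
    · exact (edge1 hc (Or.inr rfl) hn h).2.2.symm
    · obtain ⟨h1, h2⟩ := edge2 hc hn h
      rw [← h1]
      exact h2.symm
  · intro h
    refine ⟨rtD (gen_mem c v w), ?_⟩
    rw [aeval_Rpoly, hlin, hlin, hev, mul_eq_zero, mul_eq_zero, sub_eq_zero, sub_eq_zero,
      sub_eq_zero, rtD_sq]
    by_cases hvw : v = w
    · subst hvw
      right
      rw [gen_self, h, sub_self, zero_add, mul_one]
    · left
      rw [gen_ne c hvw, h]
      rcases hc w v with h1 | h1
      · left; rw [h1]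
      · right; rw [h1]

theorem exists_Ppoly {c : V → V → ℤ} (hc : ∀ v w, c v w = 1 ∨ c v w = 2) (x : KD (gens c)) :
    (∃ b : KD (gens c), MvPolynomial.aeval ![x, b] Ppoly = 0) ↔ ∃ v, x = vert c v := by
  constructor
  · rintro ⟨b, hb⟩
    rw [aeval_Ppoly, mul_eq_zero, sub_eq_zero, sub_eq_zero] at hb
    rcases hb with h | h
    · obtain ⟨v, -, h1⟩ := points hc (Or.inl rfl) h
      exact ⟨v, Subtype.ext h1⟩
    · obtain ⟨v, -, h1⟩ := points hc (Or.inr rfl) h
      exact ⟨v, Subtype.ext h1⟩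
  · rintro ⟨v, rfl⟩
    refine ⟨rtD (gen_mem c v v), ?_⟩
    rw [aeval_Ppoly, mul_eq_zero, sub_eq_zero, sub_eq_zero, rtD_sq, gen_self, map_ev]
    rcases hc v v with h | h
    · left; rw [h]; rfl
    · right; rw [h]; rfl

theorem main : ∃ (P : MvPolynomial (Fin 2) ℚ) (Q R : MvPolynomial (Fin 3) ℚ),
    ∀ (V : Type u) (E : V → V → Prop), ∃ (K : Type u) (_ : Field K) (_ : CharZero K)
      (α : V → K), IsCoding E K P Q R α := by
  classical
  refine ⟨Ppoly, Rpoly 1, Rpoly 2, fun V E => ?_⟩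
  obtain ⟨c, hcd⟩ : ∃ c : V → V → ℤ, ∀ v w, c v w = if E v w then 2 else 1 :=
    ⟨fun v w => if E v w then 2 else 1, fun _ _ => rfl⟩
  have hc : ∀ v w, c v w = 1 ∨ c v w = 2 := by
    intro v w
    rw [hcd]
    split_ifs
    · exact Or.inr rfl
    · exact Or.inl rfl
  refine ⟨KD (gens c), inferInstance, inferInstance, vert c, ⟨?_, ?_, ?_⟩, ?_, ?_⟩
  · intro v _
    exact (exists_Ppoly hc _).2 ⟨v, rfl⟩
  · exact (vert_injective c).injOn
  · intro x hx
    obtain ⟨v, rfl⟩ := (exists_Ppoly hc x).1 hx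
    exact ⟨v, Set.mem_univ _, rfl⟩
  · intro v w
    rw [exists_Rpoly hc (Or.inr rfl), hcd]
    split_ifs with h <;> simp [h]
  · intro v w
    rw [exists_Rpoly hc (Or.inl rfl), hcd]
    split_ifs with h <;> simp [h]

end Pool.Agent.H.MP_7de982_lc
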